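import Mathlib

/-!
# Centralizers in adjoint groups of finite nilpotent rings
-/

set_option autoImplicit false

open Finset

namespace Pool.Agent.H40.AlgGroup

section endo

variable {A : Type*} [AddCommGroup A] [Finite A]

/-- The image of a power, as an additive subgroup. -/
def rg (φ : Module.End ℤ A) (i : ℕ) : AddSubgroup A := (LinearMap.range (φ ^ i)).toAddSubgroup

omit [Finite A] in
lemma mem_rg {φ : Module.End ℤ A} {i : ℕ} {a : A} : a ∈ rg φ i ↔ ∃ b, (φ ^ i) b = a :=
  Iff.rfl

omit [Finite A] in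
lemma rg_succ_le (φ : Module.End ℤ A) (i : ℕ) : rg φ (i + 1) ≤ rg φ i := by
  intro a ha
  obtain ⟨b, hb⟩ := mem_rg.1 ha
  refine mem_rg.2 ⟨φ b, ?_⟩
  rw [← hb, pow_succ]; rfl

/-- Nilpotent endomorphisms of a finite `p`-group that are long enough. -/
lemma card_ge {p : ℕ} (hp : p.Prime) {k : ℕ} (hA : Nat.card A = p ^ k) (φ : Module.End ℤ A)
    {N m : ℕ} (hN : φ ^ N = 0) (hm : φ ^ m ≠ 0) : p ^ (m + 1) ≤ Nat.card A := by
  have hfin : ∀ i, 0 < Nat.card (rg φ i) := fun i => Nat.card_pos
  have hmN : m < N := by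
    by_contra h
    apply hm
    rw [show m = N + (m - N) by omega, pow_add, hN, zero_mul]
  -- strict inclusion
  have hlt : ∀ i ≤ m, rg φ (i + 1) < rg φ i := by
    intro i hi
    refine lt_of_le_of_ne (rg_succ_le φ i) fun heq => ?_
    have h1 : ∀ j, rg φ i ≤ rg φ (i + j) := by
      intro j
      induction j with
      | zero => exact le_rfl
      | succ j ih =>
        intro a ha
        have ha' : a ∈ rg φ (i + 1) := by rw [heq]; exact ha
        obtain ⟨b, hb⟩ := mem_rg.1 ha'
        obtain ⟨c, hc⟩ := mem_rg.1 (ih (mem_rg.2 ⟨b, rfl⟩))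
        refine mem_rg.2 ⟨c, ?_⟩
        rw [show i + (j + 1) = (i + j) + 1 by ring, pow_succ', Module.End.mul_apply, hc, ← hb,
          pow_succ', Module.End.mul_apply]
    apply hm
    have h2 : (φ ^ i) = 0 := by
      ext a
      obtain ⟨c, hc⟩ := mem_rg.1 (h1 (N - i) (mem_rg.2 ⟨a, rfl⟩))
      rw [show i + (N - i) = N by omega, hN] at hc
      rw [← hc]; simp
    rw [show m = i + (m - i) by omega, pow_add, h2, zero_mul]
  have hstep : ∀ i ≤ m, p * Nat.card (rg φ (i + 1)) ≤ Nat.card (rg φ i) := by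
    intro i hi
    have h1 := AddSubgroup.card_dvd_of_le (hlt i hi).le
    have h2 : Nat.card (rg φ (i + 1)) < Nat.card (rg φ i) := by
      refine lt_of_le_of_ne (Nat.le_of_dvd (hfin i) h1) fun h => ?_
      exact (hlt i hi).ne (AddSubgroup.eq_of_le_of_card_ge (hlt i hi).le h.ge)
    obtain ⟨c, hc⟩ := h1
    have h3 : c ∣ p ^ k := by
      have h4 : Nat.card (rg φ i) ∣ p ^ k := by
        rw [← hA]; exact AddSubgroup.card_addSubgroup_dvd_card _
      exact (Dvd.intro_left _ hc.symm).trans h4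
    have hc1 : c ≠ 1 := by
      rintro rfl
      rw [mul_one] at hc
      omega
    obtain ⟨j, _, rfl⟩ := (Nat.dvd_prime_pow hp).1 h3
    have hj : j ≠ 0 := by rintro rfl; simp at hc1
    rw [hc, mul_comm]
    refine Nat.mul_le_mul_left _ ?_
    calc p = p ^ 1 := (pow_one p).symm
      _ ≤ p ^ j := Nat.pow_le_pow_right hp.pos (by omega)
  have hall : ∀ i ≤ m + 1, p ^ i * Nat.card (rg φ i) ≤ Nat.card A := by
    intro i
    induction i with
    | zero =>
      intro _
      rw [pow_zero, one_mul]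
      exact Nat.le_of_dvd Nat.card_pos (AddSubgroup.card_addSubgroup_dvd_card _)
    | succ i ih =>
      intro hi
      refine le_trans ?_ (ih (by omega))
      rw [pow_succ, mul_assoc]
      exact Nat.mul_le_mul_left _ (hstep i (by omega))
  refine le_trans ?_ (hall (m + 1) le_rfl)
  exact Nat.le_mul_of_pos_right _ (hfin _)

/-- `|A| ≤ |ker ψ| ^ N` if `ψ ^ N = 0`. -/
lemma card_le_ker_pow (ψ : Module.End ℤ A) {N : ℕ} (hN : ψ ^ N = 0) :
    Nat.card A ≤ Nat.card (LinearMap.ker ψ) ^ N := by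
  have hstep : ∀ i, Nat.card (rg ψ i) ≤
      Nat.card (LinearMap.ker ψ) * Nat.card (rg ψ (i + 1)) := by
    intro i
    set H := rg ψ i with hH
    let f : H →+ A := (ψ.toAddMonoidHom).comp H.subtype
    have h1 : Nat.card H = Nat.card f.ker * Nat.card f.range := by
      rw [← AddSubgroup.card_mul_index f.ker, AddSubgroup.index_ker]
    have h2 : Nat.card f.ker ≤ Nat.card (LinearMap.ker ψ) := by
      refine Nat.card_le_card_of_injective
        (fun a : f.ker => (⟨((a : H) : A), a.2⟩ : LinearMap.ker ψ)) ?_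
      intro a b hab
      have : ((a : H) : A) = ((b : H) : A) :=
        congrArg (fun z : LinearMap.ker ψ => (z : A)) hab
      exact Subtype.ext (Subtype.ext this)
    have h3 : f.range = rg ψ (i + 1) := by
      ext a
      rw [mem_rg]
      constructor
      · rintro ⟨⟨_, ⟨b, rfl⟩⟩, rfl⟩
        exact ⟨b, by rw [pow_succ']; rfl⟩
      · rintro ⟨b, rfl⟩
        exact ⟨⟨(ψ ^ i) b, ⟨b, rfl⟩⟩, by rw [pow_succ']; rfl⟩
    rw [h1, h3]
    exact Nat.mul_le_mul_right _ h2
  have hall : ∀ i, Nat.card A ≤ Nat.card (LinearMap.ker ψ) ^ i *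
      Nat.card (rg ψ i) := by
    intro i
    induction i with
    | zero =>
      rw [pow_zero, one_mul]
      refine Nat.card_le_card_of_injective (fun a : A =>
        (⟨a, ⟨a, rfl⟩⟩ : rg ψ 0)) ?_
      intro a b hab
      exact congrArg Subtype.val hab
    | succ i ih =>
      refine ih.trans ?_
      rw [pow_succ, mul_assoc]
      exact Nat.mul_le_mul_left _ (hstep i)
  have := hall N
  have h0 : Nat.card (rg ψ N) = 1 := by
    rw [Nat.card_eq_one_iff_unique]
    refine ⟨⟨?_⟩, ⟨0⟩⟩
    rintro ⟨_, ⟨a, rfl⟩⟩ ⟨_, ⟨b, rfl⟩⟩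
    apply Subtype.ext
    change (ψ ^ N) a = (ψ ^ N) b
    rw [hN]; rfl
  rwa [h0, mul_one] at this

end endo

/-- The circle law: `e` turns the group law of `G` into `x + y + x * y`. -/
def CircleLaw {G J : Type*} [Group G] [NonUnitalRing J] (e : G ≃ J) : Prop :=
  ∀ g h : G, e (g * h) = e g + e h + e g * e h

section ring

variable {G J : Type*} [Group G] [Finite G] [NonUnitalRing J] (e : G ≃ J)

omit [Finite G] in
lemma e_one (he : CircleLaw e) : e 1 = 0 := by
  have h := he (e.symm 0) 1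
  rw [mul_one, e.apply_symm_apply, zero_mul, add_zero, zero_add] at h
  exact h.symm

/-- `g ↦ 1 + L_{e g}`. -/
noncomputable def Phi (he : CircleLaw e) : G →* Module.End ℤ J where
  toFun g := LinearMap.mulLeft ℤ (e g) + 1
  map_one' := by
    rw [e_one e he]
    ext a
    simp
  map_mul' g h := by
    ext a
    rw [he g h]
    simp only [LinearMap.add_apply, LinearMap.mulLeft_apply, Module.End.one_apply,
      Module.End.mul_apply, add_mul, mul_add, mul_assoc]
    abel

omit [Finite G] in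
lemma Phi_apply (he : CircleLaw e) (g : G) : Phi e he g = LinearMap.mulLeft ℤ (e g) + 1 := rfl

omit [Finite G] in
lemma nilp (he : CircleLaw e) {p n : ℕ} (hp : p.Prime) (hG : Nat.card G = p ^ n) (x : J) :
    ∃ N, (LinearMap.mulLeft ℤ x) ^ N = 0 := by
  set L := LinearMap.mulLeft ℤ x with hL
  have h1 : (L + 1) ^ (p ^ n) = 1 := by
    have : L + 1 = Phi e he (e.symm x) := by rw [Phi_apply, e.apply_symm_apply]
    rw [this, ← map_pow, ← hG, pow_card_eq_one', map_one]
  obtain ⟨r, hr⟩ := exists_add_pow_prime_pow_eq hp (Polynomial.X : Polynomial ℤ) 1 n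
  have h2 := congrArg (Polynomial.aeval L) hr
  simp only [map_add, map_pow, map_mul, Polynomial.aeval_X, map_one, one_pow, mul_one,
    map_natCast, h1] at h2
  have h3 : L ^ (p ^ n) = (p : Module.End ℤ J) * Polynomial.aeval L (-(Polynomial.X * r)) := by
    rw [map_neg, map_mul, Polynomial.aeval_X]
    have h4 : L ^ (p ^ n) + (p : Module.End ℤ J) * L * Polynomial.aeval L r = 0 := by
      have : L ^ (p ^ n) + 1 + (p : Module.End ℤ J) * L * Polynomial.aeval L r =
        (L ^ (p ^ n) + (p : Module.End ℤ J) * L * Polynomial.aeval L r) + 1 := by abel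
      rw [this] at h2
      exact left_eq_add.1 (h2.trans (add_comm _ _))
    rw [mul_neg, ← mul_assoc]
    exact eq_neg_of_add_eq_zero_left h4
  refine ⟨p ^ n * n, ?_⟩
  rw [pow_mul, h3, (Nat.cast_commute p _).mul_pow, ← Nat.cast_pow]
  have h5 : ((p ^ n : ℕ) : Module.End ℤ J) = 0 := by
    ext a
    have hJ : Nat.card J = p ^ n := by rw [← hG]; exact Nat.card_congr e.symm
    rw [Module.End.natCast_apply, ← hJ, card_nsmul_eq_zero']
    rfl
  rw [h5, zero_mul]

omit [Finite G] in
lemma mulLeft_pow_self (x a : J) (k : ℕ) :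
    ((LinearMap.mulLeft ℤ x ^ k) x) * a = (LinearMap.mulLeft ℤ x ^ (k + 1)) a := by
  induction k with
  | zero => simp
  | succ k ih =>
    rw [pow_succ', Module.End.mul_apply, LinearMap.mulLeft_apply, mul_assoc, ih, pow_succ' _ (k + 1),
      Module.End.mul_apply, LinearMap.mulLeft_apply]

omit [Finite G] in
lemma mulRight_pow_self (x a : J) (k : ℕ) :
    a * ((LinearMap.mulRight ℤ x ^ k) x) = (LinearMap.mulRight ℤ x ^ (k + 1)) a := by
  induction k with
  | zero => simp
  | succ k ih =>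
    rw [pow_succ', Module.End.mul_apply, LinearMap.mulRight_apply, ← mul_assoc, ih,
      pow_succ' _ (k + 1), Module.End.mul_apply, LinearMap.mulRight_apply]

omit [Finite G] in
lemma comm_LR (x : J) : Commute (LinearMap.mulLeft ℤ x) (LinearMap.mulRight ℤ x) := by
  ext a
  simp [Module.End.mul_apply, mul_assoc]

omit [Finite G] in
lemma left_eq_right (x : J) (k : ℕ) :
    (LinearMap.mulLeft ℤ x ^ k) x = (LinearMap.mulRight ℤ x ^ k) x := by
  induction k with
  | zero => rfl
  | succ k ih =>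
    have h1 : (LinearMap.mulLeft ℤ x ^ (k + 1)) x =
        (LinearMap.mulLeft ℤ x ^ k * LinearMap.mulRight ℤ x) x := by
      rw [pow_succ, Module.End.mul_apply, Module.End.mul_apply, LinearMap.mulLeft_apply,
        LinearMap.mulRight_apply]
    rw [h1, ((comm_LR x).pow_left k).eq, Module.End.mul_apply, ih, pow_succ',
      Module.End.mul_apply]

/-- Elements commuting with `x`. -/
noncomputable def Cx (x : J) : Submodule ℤ J :=
  LinearMap.ker (LinearMap.mulLeft ℤ x - LinearMap.mulRight ℤ x)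

omit [Finite G] in
lemma mem_Cx {x y : J} : y ∈ Cx x ↔ x * y = y * x := by
  rw [Cx, LinearMap.mem_ker, LinearMap.sub_apply, LinearMap.mulLeft_apply,
    LinearMap.mulRight_apply, sub_eq_zero]

omit [Finite G] in
lemma stable_Cx (x : J) : ∀ y ∈ Cx x, LinearMap.mulLeft ℤ x y ∈ Cx x := by
  intro y hy
  rw [mem_Cx] at hy ⊢
  rw [LinearMap.mulLeft_apply, mul_assoc, ← hy]

omit [Finite G] in
lemma central_card (he : CircleLaw e) {p n : ℕ} (hp : p.Prime) (hG : Nat.card G = p ^ n) (x : J) :
    ∃ s, Nat.card (Cx x) = p ^ s ∧ n ≤ s * (2 * s + 1) := by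
  have hG0 : Finite G := Nat.finite_of_card_ne_zero (by rw [hG]; exact (pow_pos hp.pos n).ne')
  have : Finite J := Finite.of_equiv G e
  have hJ : Nat.card J = p ^ n := by rw [← hG]; exact Nat.card_congr e.symm
  obtain ⟨s, _, hs⟩ := (Nat.dvd_prime_pow hp).1
    (hJ ▸ AddSubgroup.card_addSubgroup_dvd_card (Cx x).toAddSubgroup)
  have hs' : Nat.card (Cx x) = p ^ s := hs
  refine ⟨s, hs', ?_⟩
  set φ : Module.End ℤ (Cx x) := (LinearMap.mulLeft ℤ x).restrict (stable_Cx x) with hφ
  have hpow : ∀ k (y : Cx x), (((φ ^ k) y : Cx x) : J) = (LinearMap.mulLeft ℤ x ^ k) (y : J) := by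
    intro k
    induction k with
    | zero => intro y; rfl
    | succ k ih =>
      intro y
      rw [pow_succ', pow_succ', Module.End.mul_apply, Module.End.mul_apply, hφ,
        LinearMap.coe_restrict_apply, ← hφ, ih]
  obtain ⟨N0, hN0⟩ := nilp e he hp hG x
  have hφ0 : ∃ k, φ ^ k = 0 := by
    refine ⟨N0, ?_⟩
    ext y
    rw [hpow, hN0]
    rfl
  classical
  set N := Nat.find hφ0 with hN
  have hφN : φ ^ N = 0 := Nat.find_spec hφ0
  have hNs : N ≤ s := by
    by_contra hlt
    push Not at hlt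
    obtain ⟨m, hm⟩ : ∃ m, N = m + 1 := ⟨N - 1, by omega⟩
    have hne : φ ^ m ≠ 0 := Nat.find_min hφ0 (by omega)
    have h1 := card_ge hp hs' φ hφN hne
    rw [hs', ← hm] at h1
    have := (Nat.pow_le_pow_iff_right hp.one_lt).1 h1
    omega
  have hxx : (LinearMap.mulLeft ℤ x ^ N) x = 0 := by
    have h1 := hpow N ⟨x, mem_Cx.2 rfl⟩
    rw [hφN] at h1
    exact h1.symm
  have hL : LinearMap.mulLeft ℤ x ^ (N + 1) = 0 := by
    ext a
    rw [← mulLeft_pow_self, hxx, zero_mul]; rfl
  have hR : LinearMap.mulRight ℤ x ^ (N + 1) = 0 := by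
    ext a
    rw [← mulRight_pow_self, ← left_eq_right, hxx, mul_zero]; rfl
  have hLR : (LinearMap.mulLeft ℤ x - LinearMap.mulRight ℤ x) ^ (2 * N + 1) = 0 := by
    rw [sub_eq_add_neg]
    refine (comm_LR x).neg_right.add_pow_eq_zero_of_add_le_succ_of_pow_eq_zero hL
      (n := N + 1) ?_ (by omega)
    rw [neg_pow, hR, mul_zero]
  have h2 := card_le_ker_pow _ hLR
  have h3 : Nat.card (LinearMap.ker (LinearMap.mulLeft ℤ x - LinearMap.mulRight ℤ x)) = p ^ s :=
    hs'
  rw [h3, hJ, ← pow_mul] at h2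
  have h4 := (Nat.pow_le_pow_iff_right hp.one_lt).1 h2
  exact h4.trans (Nat.mul_le_mul_left _ (by omega))

omit [Finite G] in
lemma centralizer_card (he : CircleLaw e) (g : G) :
    Nat.card (Subgroup.centralizer {g}) = Nat.card (Cx (e g)) := by
  refine Nat.card_congr (Equiv.subtypeEquiv e fun h => ?_)
  rw [Subgroup.mem_centralizer_singleton_iff, mem_Cx, ← e.injective.eq_iff, he, he]
  constructor
  · intro hh
    have : e h * e g = e g * e h := by
      have h1 : e h + e g + e h * e g = e h + e g + e g * e h := by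
        rw [hh]; abel
      exact add_left_cancel h1
    exact this.symm
  · intro hh
    rw [← hh]; abel

omit [Finite G] in
/-- Every centralizer of an adjoint `p`-group of order `p ^ n` has order `p ^ s` with
`n ≤ s (2 s + 1)`. -/
theorem centralizer_bound (he : CircleLaw e) {p n : ℕ} (hp : p.Prime) (hG : Nat.card G = p ^ n)
    (g : G) : ∃ s, Nat.card (Subgroup.centralizer {g}) = p ^ s ∧ n ≤ s * (2 * s + 1) := by
  rw [centralizer_card e he g]
  exact central_card e he hp hG (e g)

omit [Finite G] in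
/-- Many classes. -/
theorem class_bound (he : CircleLaw e) {p n : ℕ} (hp : p.Prime) (hG : Nat.card G = p ^ n) :
    ∃ s, p ^ s ≤ Nat.card (ConjClasses G) ∧ n ≤ s * (2 * s + 1) := by
  classical
  have hG0 : Finite G := Nat.finite_of_card_ne_zero (by rw [hG]; exact (pow_pos hp.pos n).ne')
  have hex : ∃ s, n ≤ s * (2 * s + 1) := ⟨n, by nlinarith [Nat.zero_le n]⟩
  refine ⟨Nat.find hex, ?_, Nat.find_spec hex⟩
  set s := Nat.find hex with hs
  have hc : ∀ g : G, p ^ s ≤ Nat.card (Subgroup.centralizer {g}) := by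
    intro g
    obtain ⟨t, ht, hn⟩ := centralizer_bound e he hp hG g
    rw [ht]
    exact Nat.pow_le_pow_right hp.pos (Nat.find_min' hex hn)
  have h1 := card_comm_eq_card_conjClasses_mul_card G
  have h2 : Nat.card { q : G × G // Commute q.1 q.2 } =
      Nat.card (Σ g : G, Subgroup.centralizer {g}) := by
    refine Nat.card_congr ⟨fun q => ⟨q.1.1, ⟨q.1.2, ?_⟩⟩, fun q => ⟨(q.1, q.2.1), ?_⟩, ?_, ?_⟩
    · rw [Subgroup.mem_centralizer_singleton_iff]
      exact q.2.eq.symm
    · exact (Subgroup.mem_centralizer_singleton_iff.1 q.2.2).symm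
    · intro q; rfl
    · intro q; rfl
  have : Fintype G := Fintype.ofFinite G
  rw [h2, Nat.card_sigma] at h1
  have h3 : Nat.card G * p ^ s ≤ ∑ g : G, Nat.card (Subgroup.centralizer {g}) := by
    calc Nat.card G * p ^ s = ∑ _g : G, p ^ s := by
          rw [Finset.sum_const, Finset.card_univ, smul_eq_mul, Nat.card_eq_fintype_card]
      _ ≤ _ := Finset.sum_le_sum fun g _ => hc g
  rw [h1, mul_comm] at h3
  exact Nat.le_of_mul_le_mul_right h3 Nat.card_pos

end ring

end Pool.Agent.H40.AlgGroup
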