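import Pool.Agent.H40.ReachGame

/-! Approximate equilibria of the ten-state game satisfy the facts used in the limit argument. -/

set_option autoImplicit false
set_option linter.unusedSectionVars false
set_option linter.unusedVariables false

open Filter Topology

namespace Pool.Agent.H40

/-- approximate stationary equilibrium of the ten-state game -/
def IsEq (ε : ℝ) (σ τ : St → Fin 3 → ℝ) : Prop :=
  IsStrat σ ∧ IsStrat τ ∧
    (∀ σ' : St → Fin 3 → ℝ, IsStrat σ' → ∀ s, Rv nxt σ' τ T1 s ≤ Rv nxt σ τ T1 s + ε) ∧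
    (∀ τ' : St → Fin 3 → ℝ, IsStrat τ' → ∀ s, Rv nxt σ τ' T2 s ≤ Rv nxt σ τ T2 s + ε)

theorem I_mem : St.I ∈ T1 := rfl
theorem J_mem : St.J ∈ T2 := rfl
theorem not_T1 {g : St} (h : g ≠ St.I) : g ∉ T1 := h
theorem not_T2 {g : St} (h : g ≠ St.J) : g ∉ T2 := h

theorem Rv_abs {T : Set St} {σ τ : St → Fin 3 → ℝ} (hσ : IsStrat σ) (hτ : IsStrat τ) {g : St}
    (hg : ∀ a b, nxt g a b = g) (hT : g ∉ T) : Rv nxt σ τ T g = 0 := by
  refine Rv_closed (C := {g}) hσ hτ ?_ ?_ g rfl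
  · rintro x rfl; exact hT
  · rintro x rfl a b _; exact hg a b

variable {ε : ℝ} {σ τ : St → Fin 3 → ℝ}

theorem IsEq.fix (h : IsEq ε σ τ) (hε : 0 ≤ ε) :
    Fix σ τ (Rv nxt σ τ T1) (Rv nxt σ τ T2) ε := by
  obtain ⟨hσ, hτ, d1, d2⟩ := h
  exact
    { s0 := hσ.1
      s1 := hσ.2
      t0 := hτ.1
      t1 := hτ.2
      v1 := Rv_nonneg hσ hτ
      v2 := Rv_nonneg hσ hτ
      st1 := fun g hg => Rv_step hσ hτ (not_T1 hg)
      st2 := fun g hg => Rv_step hσ hτ (not_T2 hg)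
      d1 := fun g hg a => oneShot hσ hτ (not_T1 hg) hε d1
      d2 := fun g hg b => oneShot₂ hσ hτ (not_T2 hg) hε d2
      I1 := Rv_mem I_mem
      I2 := Rv_abs hσ hτ (fun _ _ => rfl) (not_T2 (by decide))
      J1 := Rv_abs hσ hτ (fun _ _ => rfl) (not_T1 (by decide))
      J2 := Rv_mem J_mem
      O1 := Rv_abs hσ hτ (fun _ _ => rfl) (not_T1 (by decide))
      O2 := Rv_abs hσ hτ (fun _ _ => rfl) (not_T2 (by decide)) }

theorem step22 {T : Set St} (hσ : IsStrat σ) (hτ : IsStrat τ) {g x y u v : St}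
    (hg : nxt g = mk22 x y u v) (hT : g ∉ T) :
    Rv nxt σ τ T g = σ g 0 * τ g 0 * Rv nxt σ τ T x + σ g 0 * (1 - τ g 0) * Rv nxt σ τ T y +
      (1 - σ g 0) * τ g 0 * Rv nxt σ τ T u + (1 - σ g 0) * (1 - τ g 0) * Rv nxt σ τ T v := by
  have h := Rv_step (next := nxt) hσ hτ hT
  rw [hg] at h
  rw [h, mk_sum (Rv nxt σ τ T) x y u v (σ g) (τ g) (hσ.2 g) (hτ.2 g)]

/-- the states below the core -/
def Dn : Set St := {g | g ≠ St.s ∧ g ≠ St.r ∧ g ≠ St.q}

theorem Dn_closed : ∀ x ∈ Dn, ∀ a b, nxt x a b ∈ Dn := by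
  have : ∀ x : St, (x ≠ St.s ∧ x ≠ St.r ∧ x ≠ St.q) → ∀ a b : Fin 3,
      (nxt x a b ≠ St.s ∧ nxt x a b ≠ St.r ∧ nxt x a b ≠ St.q) := by decide
  exact this

/-- playing the first action at `s` -/
def first (σ : St → Fin 3 → ℝ) : St → Fin 3 → ℝ := Function.update σ St.s (Pi.single 0 1)

theorem first_s (σ : St → Fin 3 → ℝ) : first σ St.s = Pi.single 0 1 := by simp [first]

theorem first_ne (σ : St → Fin 3 → ℝ) {x : St} (hx : x ≠ St.s) : first σ x = σ x := by
  simp [first, Function.update_of_ne hx]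

theorem first_strat (hσ : IsStrat σ) : IsStrat (first σ) := by
  refine ⟨fun s a => ?_, fun s => ?_⟩
  · by_cases hs : s = St.s
    · subst hs; rw [first_s]
      by_cases ha : a = 0
      · subst ha; simp
      · simp [Pi.single_eq_of_ne ha]
    · rw [first_ne σ hs]; exact hσ.1 s a
  · by_cases hs : s = St.s
    · subst hs; rw [first_s]; simp
    · rw [first_ne σ hs]; exact hσ.2 s

/-- player 1 can wait for player 2 -/
theorem IsEq.wait1 (h : IsEq ε σ τ) (hq : τ St.s 0 < 1) :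
    Rv nxt σ τ T1 St.b ≤ Rv nxt σ τ T1 St.s + ε := by
  obtain ⟨hσ, hτ, d1, d2⟩ := h
  have hσ' := first_strat hσ
  have e := step22 (T := T1) hσ' hτ (g := .s) (x := .s) (y := .b) (u := .r) (v := .h) rfl
    (not_T1 (by decide))
  rw [first_s] at e
  simp only [Pi.single_eq_same] at e
  have e2 : Rv nxt (first σ) τ T1 St.s = Rv nxt (first σ) τ T1 St.b := by
    have : (1 - τ St.s 0) * (Rv nxt (first σ) τ T1 St.s - Rv nxt (first σ) τ T1 St.b) = 0 := by
      linear_combination e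
    rcases mul_eq_zero.1 this with h | h
    · linarith
    · linarith
  have e3 : Rv nxt (first σ) τ T1 St.b = Rv nxt σ τ T1 St.b := by
    refine Rv_congr Dn_closed ?_ ?_ St.b ⟨by decide, by decide, by decide⟩
    · intro x hx; exact first_ne σ hx.1
    · intro x hx; rfl
  have := d1 _ hσ' St.s
  rw [e2, e3] at this
  exact this

/-- player 2 can wait for player 1 -/
theorem IsEq.wait2 (h : IsEq ε σ τ) (hε : 0 ≤ ε) (hp : σ St.s 0 < 1) :
    Rv nxt σ τ T2 St.r ≤ Rv nxt σ τ T2 St.s + ε := by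
  obtain ⟨hσ, hτ, d1, d2⟩ := h
  have hτ' := first_strat hτ
  have e := step22 (T := T2) hσ hτ' (g := .s) (x := .s) (y := .b) (u := .r) (v := .h) rfl
    (not_T2 (by decide))
  rw [first_s] at e
  simp only [Pi.single_eq_same] at e
  set W : St → ℝ := Rv nxt σ (first τ) T2 with hW
  set V : St → ℝ := Rv nxt σ τ T2 with hV
  have e2 : W St.s = W St.r := by
    have : (1 - σ St.s 0) * (W St.s - W St.r) = 0 := by
      linear_combination e
    rcases mul_eq_zero.1 this with h | h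
    · linarith
    · linarith
  have e3 : ∀ x ∈ Dn, W x = V x := by
    refine Rv_congr Dn_closed ?_ ?_
    · intro x hx; rfl
    · intro x hx; exact first_ne τ hx.1
  have w1 := step22 (T := T2) hσ hτ' (g := .r) (x := .c) (y := .O) (u := .q) (v := .h) rfl
    (not_T2 (by decide))
  have w2 := step22 (T := T2) hσ hτ' (g := .q) (x := .s) (y := .t) (u := .t) (v := .I) rfl
    (not_T2 (by decide))
  have v1 := step22 (T := T2) hσ hτ (g := .r) (x := .c) (y := .O) (u := .q) (v := .h) rfl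
    (not_T2 (by decide))
  have v2 := step22 (T := T2) hσ hτ (g := .q) (x := .s) (y := .t) (u := .t) (v := .I) rfl
    (not_T2 (by decide))
  rw [first_ne τ (show St.r ≠ St.s by decide)] at w1
  rw [first_ne τ (show St.q ≠ St.s by decide)] at w2
  rw [← hW, e3 .c ⟨by decide, by decide, by decide⟩, e3 .O ⟨by decide, by decide, by decide⟩,
    e3 .h ⟨by decide, by decide, by decide⟩] at w1
  rw [← hW, e3 .t ⟨by decide, by decide, by decide⟩, e3 .I ⟨by decide, by decide, by decide⟩]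
    at w2
  rw [← hV] at v1 v2
  set κ := (1 - σ St.r 0) * τ St.r 0 * (σ St.q 0 * τ St.q 0) with hκ
  have k : W St.r - V St.r = κ * (W St.s - V St.s) := by
    rw [w1, v1, w2, v2, hκ]; ring
  have l1 := le_one_of_sum (hσ.1 St.r) (hσ.2 St.r) 0
  have l2 := le_one_of_sum (hτ.1 St.r) (hτ.2 St.r) 0
  have l3 := le_one_of_sum (hσ.1 St.q) (hσ.2 St.q) 0
  have l4 := le_one_of_sum (hτ.1 St.q) (hτ.2 St.q) 0
  have n1 := hσ.1 St.r 0
  have n2 := hτ.1 St.r 0
  have n3 := hσ.1 St.q 0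
  have n4 := hτ.1 St.q 0
  have hκ0 : 0 ≤ κ := mul_nonneg (mul_nonneg (by linarith) n2) (mul_nonneg n3 n4)
  have hκ1 : κ ≤ 1 := by
    have a1 : (1 - σ St.r 0) * τ St.r 0 ≤ 1 := mul_le_one₀ (by linarith) n2 l2
    have a2 : σ St.q 0 * τ St.q 0 ≤ 1 := mul_le_one₀ l3 n4 l4
    exact mul_le_one₀ a1 (mul_nonneg n3 n4) a2
  have hd : W St.s ≤ V St.s + ε := d2 _ hτ' St.s
  have : (1 - κ) * (W St.s - V St.s) ≤ (1 - κ) * ε :=
    mul_le_mul_of_nonneg_left (by linarith) (by linarith)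
  nlinarith

/-- weighted sum of the two values at `s` -/
theorem IsEq.hull (h : IsEq ε σ τ) {K : ℝ} (hK : 0 ≤ K)
    (hb : 1 / 2 * Rv nxt σ τ T1 St.b + 1 * Rv nxt σ τ T2 St.b ≤ K)
    (hh : 1 / 2 * Rv nxt σ τ T1 St.h + 1 * Rv nxt σ τ T2 St.h ≤ K)
    (hc : 1 / 2 * Rv nxt σ τ T1 St.c + 1 * Rv nxt σ τ T2 St.c ≤ K)
    (ht : 1 / 2 * Rv nxt σ τ T1 St.t + 1 * Rv nxt σ τ T2 St.t ≤ K)
    (hI : 1 / 2 * Rv nxt σ τ T1 St.I + 1 * Rv nxt σ τ T2 St.I ≤ K)
    (hO : 1 / 2 * Rv nxt σ τ T1 St.O + 1 * Rv nxt σ τ T2 St.O ≤ K) :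
    1 / 2 * Rv nxt σ τ T1 St.s + 1 * Rv nxt σ τ T2 St.s ≤ K := by
  obtain ⟨hσ, hτ, _, _⟩ := h
  refine Rv_hull (D := {g | g = St.s ∨ g = St.r ∨ g = St.q}) hσ hτ (by norm_num) (by norm_num)
    hK ?_ ?_ ?_ St.s (Or.inl rfl)
  · rintro x (rfl | rfl | rfl) <;> exact not_T1 (by decide)
  · rintro x (rfl | rfl | rfl) <;> exact not_T2 (by decide)
  · have key : ∀ x : St, (x = St.s ∨ x = St.r ∨ x = St.q) → ∀ a b : Fin 3,
        ((nxt x a b = St.s ∨ nxt x a b = St.r ∨ nxt x a b = St.q) ∨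
          (nxt x a b = St.b ∨ nxt x a b = St.h ∨ nxt x a b = St.c ∨ nxt x a b = St.t ∨
            nxt x a b = St.I ∨ nxt x a b = St.O)) := by decide
    intro x hx a b
    rcases key x hx a b with h | h | h | h | h | h | h
    · exact Or.inl h
    · right; rw [h]; exact hb
    · right; rw [h]; exact hh
    · right; rw [h]; exact hc
    · right; rw [h]; exact ht
    · right; rw [h]; exact hI
    · right; rw [h]; exact hO

/-- value at `s` when nobody moves there -/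
theorem IsEq.stay (h : IsEq ε σ τ) (hp : σ St.s 0 = 1) (hq : τ St.s 0 = 1) :
    Rv nxt σ τ T2 St.s = 0 := by
  obtain ⟨hσ, hτ, _, _⟩ := h
  have hs : ∀ a, a ≠ 0 → σ St.s a = 0 := by
    have h1 := hσ.2 St.s
    rw [Fin.sum_univ_three, hp] at h1
    have a1 := hσ.1 St.s 1
    have a2 := hσ.1 St.s 2
    intro a ha
    fin_cases a
    · exact absurd rfl ha
    · show σ St.s 1 = 0; linarith
    · show σ St.s 2 = 0; linarith
  have ht : ∀ a, a ≠ 0 → τ St.s a = 0 := by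
    have h1 := hτ.2 St.s
    rw [Fin.sum_univ_three, hq] at h1
    have a1 := hτ.1 St.s 1
    have a2 := hτ.1 St.s 2
    intro a ha
    fin_cases a
    · exact absurd rfl ha
    · show τ St.s 1 = 0; linarith
    · show τ St.s 2 = 0; linarith
  refine Rv_closed (C := {St.s}) hσ hτ ?_ ?_ St.s rfl
  · rintro x rfl; exact not_T2 (by decide)
  · rintro x rfl a b hab
    have ha : a = 0 := by
      by_contra hne
      exact hab (by rw [hs a hne, zero_mul])
    have hb : b = 0 := by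
      by_contra hne
      exact hab (by rw [ht b hne, mul_zero])
    subst ha; subst hb
    rfl

theorem IsEq.only1 {T : Set St} (h : IsEq ε σ τ) (hT : St.s ∉ T) (hp : σ St.s 0 < 1)
    (hq : τ St.s 0 = 1) : Rv nxt σ τ T St.s = Rv nxt σ τ T St.r := by
  obtain ⟨hσ, hτ, _, _⟩ := h
  have e := step22 (T := T) hσ hτ (g := .s) (x := .s) (y := .b) (u := .r) (v := .h) rfl hT
  rw [hq] at e
  have : (1 - σ St.s 0) * (Rv nxt σ τ T St.s - Rv nxt σ τ T St.r) = 0 := by
    linear_combination e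
  rcases mul_eq_zero.1 this with h | h
  · linarith
  · linarith

theorem IsEq.only2 {T : Set St} (h : IsEq ε σ τ) (hT : St.s ∉ T) (hp : σ St.s 0 = 1)
    (hq : τ St.s 0 < 1) : Rv nxt σ τ T St.s = Rv nxt σ τ T St.b := by
  obtain ⟨hσ, hτ, _, _⟩ := h
  have e := step22 (T := T) hσ hτ (g := .s) (x := .s) (y := .b) (u := .r) (v := .h) rfl hT
  rw [hp] at e
  have : (1 - τ St.s 0) * (Rv nxt σ τ T St.s - Rv nxt σ τ T St.b) = 0 := by
    linear_combination e
  rcases mul_eq_zero.1 this with h | h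
  · linarith
  · linarith

/-- the main statement: some positive `ε` admits no approximate equilibrium -/
theorem no_eq : ¬ ∀ ε : ℝ, 0 < ε → ∃ σ τ : St → Fin 3 → ℝ, IsEq ε σ τ := by
  intro H
  have H' : ∀ n : ℕ, ∃ σ τ : St → Fin 3 → ℝ, IsEq (1 / ((n : ℝ) + 1)) σ τ := fun n =>
    H _ (by positivity)
  choose σ τ h using H'
  set F : Ultrafilter ℕ := hyperfilter ℕ with hF
  have hFle : (F : Filter ℕ) ≤ atTop := Nat.hyperfilter_le_atTop
  have hε : Tendsto (fun n : ℕ => 1 / ((n : ℝ) + 1)) F (𝓝 0) :=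
    tendsto_one_div_add_atTop_nhds_zero_nat.mono_left hFle
  have hε0 : ∀ n : ℕ, (0 : ℝ) ≤ 1 / ((n : ℝ) + 1) := fun n => by positivity
  obtain ⟨σ', τ', V₁, V₂, hfix, tσ, tτ, tV₁, tV₂⟩ := limit_fix F σ τ
    (fun n => Rv nxt (σ n) (τ n) T1) (fun n => Rv nxt (σ n) (τ n) T2)
    (fun n => 1 / ((n : ℝ) + 1)) hε
    (fun n g => Rv_le_one (h n).1 (h n).2.1 g) (fun n g => Rv_le_one (h n).1 (h n).2.1 g)
    (fun n => (h n).fix (hε0 n))
  -- the weighted sum
  have hull : V₁ St.s / 2 + V₂ St.s ≤ 3 / 4 := by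
    have tw : ∀ g, Tendsto (fun n => 1 / 2 * Rv nxt (σ n) (τ n) T1 g +
        1 * Rv nxt (σ n) (τ n) T2 g) F (𝓝 (1 / 2 * V₁ g + 1 * V₂ g)) := fun g =>
      ((tV₁ g).const_mul _).add ((tV₂ g).const_mul _)
    have ev : ∀ δ : ℝ, 0 < δ → ∀ g, 1 / 2 * V₁ g + 1 * V₂ g ≤ 3 / 4 →
        ∀ᶠ n in (F : Filter ℕ), 1 / 2 * Rv nxt (σ n) (τ n) T1 g +
          1 * Rv nxt (σ n) (τ n) T2 g ≤ 3 / 4 + δ := by
      intro δ hδ g hg
      exact (tw g).eventually_le_const (by linarith)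
    refine le_of_forall_pos_le_add fun δ hδ => ?_
    obtain ⟨b1, b2⟩ := hfix.b_val
    obtain ⟨h1, h2⟩ := hfix.h_val
    obtain ⟨c1, c2⟩ := hfix.c_val
    obtain ⟨t1, t2⟩ := hfix.t_val
    have hev : ∀ᶠ n in (F : Filter ℕ), 1 / 2 * Rv nxt (σ n) (τ n) T1 St.s +
        1 * Rv nxt (σ n) (τ n) T2 St.s ≤ 3 / 4 + δ := by
      filter_upwards [ev δ hδ St.b (by rw [b1, b2]; norm_num),
        ev δ hδ St.h (by rw [h1, h2]; norm_num), ev δ hδ St.c (by rw [c1, c2]; norm_num),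
        ev δ hδ St.t (by rw [t1, t2]; norm_num),
        ev δ hδ St.I (by rw [hfix.I1, hfix.I2]; norm_num),
        ev δ hδ St.O (by rw [hfix.O1, hfix.O2]; norm_num)] with n k1 k2 k3 k4 k5 k6
      exact (h n).hull (by linarith) k1 k2 k3 k4 k5 k6
    have := le_of_tendsto (tw St.s) hev
    linarith
  have sT1 : St.s ∉ T1 := not_T1 (by decide)
  have sT2 : St.s ∉ T2 := not_T2 (by decide)
  have hp1 : ∀ n, σ n St.s 0 ≤ 1 := fun n => le_one_of_sum ((h n).1.1 _) ((h n).1.2 _) 0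
  have hq1 : ∀ n, τ n St.s 0 ≤ 1 := fun n => le_one_of_sum ((h n).2.1.1 _) ((h n).2.1.2 _) 0
  rcases F.em (fun n => σ n St.s 0 = 1) with hp | hp <;>
  rcases F.em (fun n => τ n St.s 0 = 1) with hq | hq
  · -- nobody moves
    refine hfix.caseA ?_
    refine tendsto_nhds_unique (tV₂ St.s) ?_
    refine (tendsto_congr' ?_).2 tendsto_const_nhds
    filter_upwards [hp, hq] with n k1 k2
    exact (h n).stay k1 k2
  · -- only player 2 moves
    refine hfix.caseB ?_ ?_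
    · refine tendsto_nhds_unique (tV₁ St.s) ((tendsto_congr' ?_).1 (tV₁ St.b))
      filter_upwards [hp, hq] with n k1 k2
      exact ((h n).only2 sT1 k1 (lt_of_le_of_ne (hq1 n) k2)).symm
    · refine tendsto_nhds_unique (tV₂ St.s) ((tendsto_congr' ?_).1 (tV₂ St.b))
      filter_upwards [hp, hq] with n k1 k2
      exact ((h n).only2 sT2 k1 (lt_of_le_of_ne (hq1 n) k2)).symm
  · -- only player 1 moves
    refine hfix.caseD ?_ ?_ hull
    · refine tendsto_nhds_unique (tV₁ St.s) ((tendsto_congr' ?_).1 (tV₁ St.r))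
      filter_upwards [hp, hq] with n k1 k2
      exact ((h n).only1 sT1 (lt_of_le_of_ne (hp1 n) k1) k2).symm
    · refine tendsto_nhds_unique (tV₂ St.s) ((tendsto_congr' ?_).1 (tV₂ St.r))
      filter_upwards [hp, hq] with n k1 k2
      exact ((h n).only1 sT2 (lt_of_le_of_ne (hp1 n) k1) k2).symm
  · -- both move
    refine hfix.caseC ?_ ?_ hull
    · have t : Tendsto (fun n => Rv nxt (σ n) (τ n) T1 St.s + 1 / ((n : ℝ) + 1)) F
          (𝓝 (V₁ St.s + 0)) := (tV₁ St.s).add hε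
      rw [add_zero] at t
      refine le_of_tendsto_of_tendsto (tV₁ St.b) t ?_
      filter_upwards [hp, hq] with n k1 k2
      exact (h n).wait1 (lt_of_le_of_ne (hq1 n) k2)
    · have t : Tendsto (fun n => Rv nxt (σ n) (τ n) T2 St.s + 1 / ((n : ℝ) + 1)) F
          (𝓝 (V₂ St.s + 0)) := (tV₂ St.s).add hε
      rw [add_zero] at t
      refine le_of_tendsto_of_tendsto (tV₂ St.r) t ?_
      filter_upwards [hp, hq] with n k1 k2
      exact (h n).wait2 (hε0 n) (lt_of_le_of_ne (hp1 n) k1)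

end Pool.Agent.H40
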