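import Pool.Agent.H40.ReachGen

/-! A ten-state deterministic two-player game without stationary approximate equilibria. -/

set_option autoImplicit false
set_option linter.unusedSectionVars false
set_option linter.unusedVariables false

open Filter Topology

namespace Pool.Agent.H40

/-- the ten states -/
inductive St
  | s | r | q | c | h | t | b | I | J | O
  deriving DecidableEq, Fintype

/-- a two by two state (the third action of each player doubles the second one) -/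
def mk22 (x y u v : St) (i j : Fin 3) : St :=
  if i = 0 then (if j = 0 then x else y) else (if j = 0 then u else v)

/-- the cyclic three by three state -/
def cyc (i j : Fin 3) : St := if i = j then St.I else if j = i + 1 then St.J else St.O

/-- transitions -/
def nxt : St → Fin 3 → Fin 3 → St
  | .s => mk22 .s .b .r .h
  | .r => mk22 .c .O .q .h
  | .q => mk22 .s .t .t .I
  | .c => cyc
  | .h => mk22 .I .J .J .I
  | .t => mk22 .c .J .J .c
  | .b => mk22 .I .c .J .h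
  | .I => fun _ _ => .I
  | .J => fun _ _ => .J
  | .O => fun _ _ => .O

/-- target of player 1 -/
def T1 : Set St := {St.I}
/-- target of player 2 -/
def T2 : Set St := {St.J}

theorem mk_sum (f : St → ℝ) (x y u v : St) (σ τ : Fin 3 → ℝ) (hσ : ∑ a, σ a = 1)
    (hτ : ∑ a, τ a = 1) :
    ∑ i, ∑ j, σ i * τ j * f (mk22 x y u v i j) =
      σ 0 * τ 0 * f x + σ 0 * (1 - τ 0) * f y + (1 - σ 0) * τ 0 * f u +
        (1 - σ 0) * (1 - τ 0) * f v := by
  rw [Fin.sum_univ_three] at hσ hτ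
  have e1 : σ 2 = 1 - σ 0 - σ 1 := by linarith
  have e2 : τ 2 = 1 - τ 0 - τ 1 := by linarith
  simp [Fin.sum_univ_three, mk22, e1, e2]
  ring

theorem mk_row0 (f : St → ℝ) (x y u v : St) (τ : Fin 3 → ℝ) (hτ : ∑ a, τ a = 1) :
    ∑ j, τ j * f (mk22 x y u v 0 j) = τ 0 * f x + (1 - τ 0) * f y := by
  rw [Fin.sum_univ_three] at hτ
  have e2 : τ 2 = 1 - τ 0 - τ 1 := by linarith
  simp [Fin.sum_univ_three, mk22, e2]
  ring

theorem mk_row1 (f : St → ℝ) (x y u v : St) (τ : Fin 3 → ℝ) (hτ : ∑ a, τ a = 1) :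
    ∑ j, τ j * f (mk22 x y u v 1 j) = τ 0 * f u + (1 - τ 0) * f v := by
  rw [Fin.sum_univ_three] at hτ
  have e2 : τ 2 = 1 - τ 0 - τ 1 := by linarith
  simp [Fin.sum_univ_three, mk22, e2]
  ring

theorem mk_col0 (f : St → ℝ) (x y u v : St) (σ : Fin 3 → ℝ) (hσ : ∑ a, σ a = 1) :
    ∑ i, σ i * f (mk22 x y u v i 0) = σ 0 * f x + (1 - σ 0) * f u := by
  rw [Fin.sum_univ_three] at hσ
  have e2 : σ 2 = 1 - σ 0 - σ 1 := by linarith
  simp [Fin.sum_univ_three, mk22, e2]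
  ring

theorem mk_col1 (f : St → ℝ) (x y u v : St) (σ : Fin 3 → ℝ) (hσ : ∑ a, σ a = 1) :
    ∑ i, σ i * f (mk22 x y u v i 1) = σ 0 * f y + (1 - σ 0) * f v := by
  rw [Fin.sum_univ_three] at hσ
  have e2 : σ 2 = 1 - σ 0 - σ 1 := by linarith
  simp [Fin.sum_univ_three, mk22, e2]
  ring

/-- closed facts about an approximate equilibrium -/
structure Fix (σ τ : St → Fin 3 → ℝ) (V₁ V₂ : St → ℝ) (ε : ℝ) : Prop where
  s0 : ∀ g a, 0 ≤ σ g a
  s1 : ∀ g, ∑ a, σ g a = 1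
  t0 : ∀ g a, 0 ≤ τ g a
  t1 : ∀ g, ∑ a, τ g a = 1
  v1 : ∀ g, 0 ≤ V₁ g
  v2 : ∀ g, 0 ≤ V₂ g
  st1 : ∀ g, g ≠ St.I → V₁ g = ∑ a, ∑ b, σ g a * τ g b * V₁ (nxt g a b)
  st2 : ∀ g, g ≠ St.J → V₂ g = ∑ a, ∑ b, σ g a * τ g b * V₂ (nxt g a b)
  d1 : ∀ g, g ≠ St.I → ∀ a, ∑ b, τ g b * V₁ (nxt g a b) ≤ V₁ g + ε
  d2 : ∀ g, g ≠ St.J → ∀ b, ∑ a, σ g a * V₂ (nxt g a b) ≤ V₂ g + ε
  I1 : V₁ St.I = 1
  I2 : V₂ St.I = 0
  J1 : V₁ St.J = 0
  J2 : V₂ St.J = 1
  O1 : V₁ St.O = 0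
  O2 : V₂ St.O = 0

theorem ulim (F : Ultrafilter ℕ) (f : ℕ → ℝ) (h0 : ∀ n, 0 ≤ f n) (h1 : ∀ n, f n ≤ 1) :
    ∃ L : ℝ, Tendsto f F (𝓝 L) := by
  have hK : IsCompact (Set.Icc (0 : ℝ) 1) := isCompact_Icc
  obtain ⟨L, _, hL⟩ := hK.ultrafilter_le_nhds (F.map f) (by
    rw [Filter.le_principal_iff]
    show ∀ᶠ n in (F : Filter ℕ), f n ∈ Set.Icc (0 : ℝ) 1
    exact Eventually.of_forall fun n => ⟨h0 n, h1 n⟩)
  exact ⟨L, hL⟩

theorem le_one_of_sum {f : Fin 3 → ℝ} (h0 : ∀ a, 0 ≤ f a) (h1 : ∑ a, f a = 1) (a : Fin 3) :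
    f a ≤ 1 := by
  rw [← h1]
  exact Finset.single_le_sum (fun i _ => h0 i) (Finset.mem_univ a)

theorem limit_fix (F : Ultrafilter ℕ) (σ τ : ℕ → St → Fin 3 → ℝ) (V₁ V₂ : ℕ → St → ℝ)
    (ε : ℕ → ℝ) (hε : Tendsto ε F (𝓝 0)) (hb1 : ∀ n g, V₁ n g ≤ 1) (hb2 : ∀ n g, V₂ n g ≤ 1)
    (h : ∀ n, Fix (σ n) (τ n) (V₁ n) (V₂ n) (ε n)) :
    ∃ (σ' τ' : St → Fin 3 → ℝ) (V₁' V₂' : St → ℝ), Fix σ' τ' V₁' V₂' 0 ∧
      (∀ g a, Tendsto (fun n => σ n g a) F (𝓝 (σ' g a))) ∧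
      (∀ g a, Tendsto (fun n => τ n g a) F (𝓝 (τ' g a))) ∧
      (∀ g, Tendsto (fun n => V₁ n g) F (𝓝 (V₁' g))) ∧
      (∀ g, Tendsto (fun n => V₂ n g) F (𝓝 (V₂' g))) := by
  have H1 : ∀ g a, ∃ L : ℝ, Tendsto (fun n => σ n g a) F (𝓝 L) := fun g a =>
    ulim F _ (fun n => (h n).s0 g a) (fun n => le_one_of_sum ((h n).s0 g) ((h n).s1 g) a)
  have H2 : ∀ g a, ∃ L : ℝ, Tendsto (fun n => τ n g a) F (𝓝 L) := fun g a =>
    ulim F _ (fun n => (h n).t0 g a) (fun n => le_one_of_sum ((h n).t0 g) ((h n).t1 g) a)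
  have H3 : ∀ g, ∃ L : ℝ, Tendsto (fun n => V₁ n g) F (𝓝 L) := fun g =>
    ulim F _ (fun n => (h n).v1 g) (fun n => hb1 n g)
  have H4 : ∀ g, ∃ L : ℝ, Tendsto (fun n => V₂ n g) F (𝓝 L) := fun g =>
    ulim F _ (fun n => (h n).v2 g) (fun n => hb2 n g)
  choose σ' hσ' using H1
  choose τ' hτ' using H2
  choose V₁' hV₁' using H3
  choose V₂' hV₂' using H4
  refine ⟨σ', τ', V₁', V₂', ?_, hσ', hτ', hV₁', hV₂'⟩
  constructor
  · intro g a; exact ge_of_tendsto' (hσ' g a) fun n => (h n).s0 g a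
  · intro g
    refine tendsto_nhds_unique (tendsto_finsetSum _ fun a _ => hσ' g a) ?_
    have : (fun n => ∑ a, σ n g a) = fun _ => (1 : ℝ) := by funext n; exact (h n).s1 g
    rw [this]; exact tendsto_const_nhds
  · intro g a; exact ge_of_tendsto' (hτ' g a) fun n => (h n).t0 g a
  · intro g
    refine tendsto_nhds_unique (tendsto_finsetSum _ fun a _ => hτ' g a) ?_
    have : (fun n => ∑ a, τ n g a) = fun _ => (1 : ℝ) := by funext n; exact (h n).t1 g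
    rw [this]; exact tendsto_const_nhds
  · intro g; exact ge_of_tendsto' (hV₁' g) fun n => (h n).v1 g
  · intro g; exact ge_of_tendsto' (hV₂' g) fun n => (h n).v2 g
  · intro g hg
    refine tendsto_nhds_unique (hV₁' g) ?_
    have e : (fun n => V₁ n g) =
        fun n => ∑ a, ∑ b, σ n g a * τ n g b * V₁ n (nxt g a b) := by
      funext n; exact (h n).st1 g hg
    rw [e]
    exact tendsto_finsetSum _ fun a _ => tendsto_finsetSum _ fun b _ =>
      ((hσ' g a).mul (hτ' g b)).mul (hV₁' _)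
  · intro g hg
    refine tendsto_nhds_unique (hV₂' g) ?_
    have e : (fun n => V₂ n g) =
        fun n => ∑ a, ∑ b, σ n g a * τ n g b * V₂ n (nxt g a b) := by
      funext n; exact (h n).st2 g hg
    rw [e]
    exact tendsto_finsetSum _ fun a _ => tendsto_finsetSum _ fun b _ =>
      ((hσ' g a).mul (hτ' g b)).mul (hV₂' _)
  · intro g hg a
    exact le_of_tendsto_of_tendsto'
      (tendsto_finsetSum _ fun b _ => (hτ' g b).mul (hV₁' (nxt g a b)))
      ((hV₁' g).add hε) fun n => (h n).d1 g hg a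
  · intro g hg b
    exact le_of_tendsto_of_tendsto'
      (tendsto_finsetSum _ fun a _ => (hσ' g a).mul (hV₂' (nxt g a b)))
      ((hV₂' g).add hε) fun n => (h n).d2 g hg b
  · refine tendsto_nhds_unique (hV₁' _) ?_
    have : (fun n => V₁ n St.I) = fun _ => (1 : ℝ) := by funext n; exact (h n).I1
    rw [this]; exact tendsto_const_nhds
  · refine tendsto_nhds_unique (hV₂' _) ?_
    have : (fun n => V₂ n St.I) = fun _ => (0 : ℝ) := by funext n; exact (h n).I2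
    rw [this]; exact tendsto_const_nhds
  · refine tendsto_nhds_unique (hV₁' _) ?_
    have : (fun n => V₁ n St.J) = fun _ => (0 : ℝ) := by funext n; exact (h n).J1
    rw [this]; exact tendsto_const_nhds
  · refine tendsto_nhds_unique (hV₂' _) ?_
    have : (fun n => V₂ n St.J) = fun _ => (1 : ℝ) := by funext n; exact (h n).J2
    rw [this]; exact tendsto_const_nhds
  · refine tendsto_nhds_unique (hV₁' _) ?_
    have : (fun n => V₁ n St.O) = fun _ => (0 : ℝ) := by funext n; exact (h n).O1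
    rw [this]; exact tendsto_const_nhds
  · refine tendsto_nhds_unique (hV₂' _) ?_
    have : (fun n => V₂ n St.O) = fun _ => (0 : ℝ) := by funext n; exact (h n).O2
    rw [this]; exact tendsto_const_nhds

/-- two by two one-shot games of matching-pennies type -/
theorem mp {p q A B C D A' B' C' D' V W : ℝ} (hp0 : 0 ≤ p) (hp1 : p ≤ 1) (hq0 : 0 ≤ q)
    (hq1 : q ≤ 1) (h1 : C < A) (h2 : B < D) (h3 : A' < B') (h4 : D' < C')
    (hV : V = p * q * A + p * (1 - q) * B + (1 - p) * q * C + (1 - p) * (1 - q) * D)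
    (hW : W = p * q * A' + p * (1 - q) * B' + (1 - p) * q * C' + (1 - p) * (1 - q) * D')
    (d1 : q * A + (1 - q) * B ≤ V) (d2 : q * C + (1 - q) * D ≤ V)
    (d3 : p * A' + (1 - p) * C' ≤ W) (d4 : p * B' + (1 - p) * D' ≤ W) :
    q * A + (1 - q) * B = V ∧ q * C + (1 - q) * D = V ∧
      p * A' + (1 - p) * C' = W ∧ p * B' + (1 - p) * D' = W := by
  have k1 : p * (V - (q * A + (1 - q) * B)) = 0 ∧ (1 - p) * (V - (q * C + (1 - q) * D)) = 0 := by
    have a1 : 0 ≤ p * (V - (q * A + (1 - q) * B)) := mul_nonneg hp0 (by linarith)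
    have a2 : 0 ≤ (1 - p) * (V - (q * C + (1 - q) * D)) :=
      mul_nonneg (by linarith) (by linarith)
    have a3 : p * (V - (q * A + (1 - q) * B)) + (1 - p) * (V - (q * C + (1 - q) * D)) = 0 := by
      linear_combination (1 : ℝ) * hV
    constructor <;> linarith
  have k2 : q * (W - (p * A' + (1 - p) * C')) = 0 ∧
      (1 - q) * (W - (p * B' + (1 - p) * D')) = 0 := by
    have a1 : 0 ≤ q * (W - (p * A' + (1 - p) * C')) := mul_nonneg hq0 (by linarith)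
    have a2 : 0 ≤ (1 - q) * (W - (p * B' + (1 - p) * D')) :=
      mul_nonneg (by linarith) (by linarith)
    have a3 : q * (W - (p * A' + (1 - p) * C')) + (1 - q) * (W - (p * B' + (1 - p) * D')) = 0 := by
      linear_combination (1 : ℝ) * hW
    constructor <;> linarith
  have hp0' : p ≠ 0 := by
    rintro rfl
    have e1 : (1 - q) = 0 := by
      rcases mul_eq_zero.1 k2.2 with h | h
      · exact h
      · exfalso; nlinarith
    have e2 : q = 1 := by linarith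
    subst e2
    nlinarith
  have hp1' : 1 - p ≠ 0 := by
    intro h
    have hp : p = 1 := by linarith
    subst hp
    have e1 : q = 0 := by
      rcases mul_eq_zero.1 k2.1 with h | h
      · exact h
      · exfalso; nlinarith
    subst e1
    nlinarith
  have hq0' : q ≠ 0 := by
    rintro rfl
    rcases mul_eq_zero.1 k1.1 with h | h
    · exact hp0' h
    · nlinarith
  have hq1' : 1 - q ≠ 0 := by
    intro h
    have hq : q = 1 := by linarith
    subst hq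
    rcases mul_eq_zero.1 k1.2 with h | h
    · exact hp1' h
    · nlinarith
  refine ⟨?_, ?_, ?_, ?_⟩
  · rcases mul_eq_zero.1 k1.1 with h | h
    · exact absurd h hp0'
    · linarith
  · rcases mul_eq_zero.1 k1.2 with h | h
    · exact absurd h hp1'
    · linarith
  · rcases mul_eq_zero.1 k2.1 with h | h
    · exact absurd h hq0'
    · linarith
  · rcases mul_eq_zero.1 k2.2 with h | h
    · exact absurd h hq1'
    · linarith

/-- the cyclic three by three one-shot game -/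
theorem rps {x0 x1 x2 y0 y1 y2 V W : ℝ} (hx0 : 0 ≤ x0) (hx1 : 0 ≤ x1) (hx2 : 0 ≤ x2)
    (hy0 : 0 ≤ y0) (hy1 : 0 ≤ y1) (hy2 : 0 ≤ y2) (hx : x0 + x1 + x2 = 1)
    (hy : y0 + y1 + y2 = 1) (hV : V = x0 * y0 + x1 * y1 + x2 * y2)
    (hW : W = x0 * y1 + x1 * y2 + x2 * y0)
    (a0 : y0 ≤ V) (a1 : y1 ≤ V) (a2 : y2 ≤ V) (b0 : x2 ≤ W) (b1 : x0 ≤ W) (b2 : x1 ≤ W) :
    V = 1 / 3 ∧ W = 1 / 3 := by
  have hVp : 0 < V := by linarith
  have hWp : 0 < W := by linarith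
  have c0 : 0 ≤ x0 * (V - y0) := mul_nonneg hx0 (by linarith)
  have c1 : 0 ≤ x1 * (V - y1) := mul_nonneg hx1 (by linarith)
  have c2 : 0 ≤ x2 * (V - y2) := mul_nonneg hx2 (by linarith)
  have cs : x0 * (V - y0) + x1 * (V - y1) + x2 * (V - y2) = 0 := by
    linear_combination V * hx + hV
  have d0 : 0 ≤ y1 * (W - x0) := mul_nonneg hy1 (by linarith)
  have d1 : 0 ≤ y2 * (W - x1) := mul_nonneg hy2 (by linarith)
  have d2 : 0 ≤ y0 * (W - x2) := mul_nonneg hy0 (by linarith)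
  have ds : y1 * (W - x0) + y2 * (W - x1) + y0 * (W - x2) = 0 := by
    linear_combination W * hy + hW
  have C0 : x0 = 0 ∨ y0 = V := by
    have : x0 * (V - y0) = 0 := by linarith
    rcases mul_eq_zero.1 this with h | h
    · exact Or.inl h
    · exact Or.inr (by linarith)
  have C1 : x1 = 0 ∨ y1 = V := by
    have : x1 * (V - y1) = 0 := by linarith
    rcases mul_eq_zero.1 this with h | h
    · exact Or.inl h
    · exact Or.inr (by linarith)
  have C2 : x2 = 0 ∨ y2 = V := by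
    have : x2 * (V - y2) = 0 := by linarith
    rcases mul_eq_zero.1 this with h | h
    · exact Or.inl h
    · exact Or.inr (by linarith)
  have D0 : y1 = 0 ∨ x0 = W := by
    have : y1 * (W - x0) = 0 := by linarith
    rcases mul_eq_zero.1 this with h | h
    · exact Or.inl h
    · exact Or.inr (by linarith)
  have D1 : y2 = 0 ∨ x1 = W := by
    have : y2 * (W - x1) = 0 := by linarith
    rcases mul_eq_zero.1 this with h | h
    · exact Or.inl h
    · exact Or.inr (by linarith)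
  have D2 : y0 = 0 ∨ x2 = W := by
    have : y0 * (W - x2) = 0 := by linarith
    rcases mul_eq_zero.1 this with h | h
    · exact Or.inl h
    · exact Or.inr (by linarith)
  rcases C0 with e0 | e0 <;> rcases C1 with e1 | e1 <;> rcases C2 with e2 | e2 <;>
  rcases D0 with f0 | f0 <;> rcases D1 with f1 | f1 <;> rcases D2 with f2 | f2 <;>
  first
    | (exfalso; linarith)
    | (constructor <;> linarith)

section Limit

variable {σ τ : St → Fin 3 → ℝ} {V₁ V₂ : St → ℝ} {ε : ℝ}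

theorem Fix.le1 (F : Fix σ τ V₁ V₂ ε) (g : St) (a : Fin 3) : σ g a ≤ 1 :=
  le_one_of_sum (F.s0 g) (F.s1 g) a

theorem Fix.le2 (F : Fix σ τ V₁ V₂ ε) (g : St) (a : Fin 3) : τ g a ≤ 1 :=
  le_one_of_sum (F.t0 g) (F.t1 g) a

/-- all information at a two by two state -/
theorem Fix.two (F : Fix σ τ V₁ V₂ ε) {g x y u v : St} (hg : nxt g = mk22 x y u v)
    (h1 : g ≠ St.I) (h2 : g ≠ St.J) :
    V₁ g = σ g 0 * τ g 0 * V₁ x + σ g 0 * (1 - τ g 0) * V₁ y + (1 - σ g 0) * τ g 0 * V₁ u +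
        (1 - σ g 0) * (1 - τ g 0) * V₁ v ∧
    V₂ g = σ g 0 * τ g 0 * V₂ x + σ g 0 * (1 - τ g 0) * V₂ y + (1 - σ g 0) * τ g 0 * V₂ u +
        (1 - σ g 0) * (1 - τ g 0) * V₂ v ∧
    τ g 0 * V₁ x + (1 - τ g 0) * V₁ y ≤ V₁ g + ε ∧
    τ g 0 * V₁ u + (1 - τ g 0) * V₁ v ≤ V₁ g + ε ∧
    σ g 0 * V₂ x + (1 - σ g 0) * V₂ u ≤ V₂ g + ε ∧
    σ g 0 * V₂ y + (1 - σ g 0) * V₂ v ≤ V₂ g + ε := by
  refine ⟨?_, ?_, ?_, ?_, ?_, ?_⟩
  · rw [F.st1 g h1, hg, mk_sum V₁ x y u v (σ g) (τ g) (F.s1 g) (F.t1 g)]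
  · rw [F.st2 g h2, hg, mk_sum V₂ x y u v (σ g) (τ g) (F.s1 g) (F.t1 g)]
  · have := F.d1 g h1 0
    rw [hg, mk_row0 V₁ x y u v (τ g) (F.t1 g)] at this
    exact this
  · have := F.d1 g h1 1
    rw [hg, mk_row1 V₁ x y u v (τ g) (F.t1 g)] at this
    exact this
  · have := F.d2 g h2 0
    rw [hg, mk_col0 V₂ x y u v (σ g) (F.s1 g)] at this
    exact this
  · have := F.d2 g h2 1
    rw [hg, mk_col1 V₂ x y u v (σ g) (F.s1 g)] at this
    exact this

theorem Fix.mpv (F : Fix σ τ V₁ V₂ 0) {g x y u v : St} (hg : nxt g = mk22 x y u v)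
    (h1 : g ≠ St.I) (h2 : g ≠ St.J) (c1 : V₁ u < V₁ x) (c2 : V₁ y < V₁ v) (c3 : V₂ x < V₂ y)
    (c4 : V₂ v < V₂ u) :
    τ g 0 * V₁ x + (1 - τ g 0) * V₁ y = V₁ g ∧
    τ g 0 * V₁ u + (1 - τ g 0) * V₁ v = V₁ g ∧
    σ g 0 * V₂ x + (1 - σ g 0) * V₂ u = V₂ g ∧
    σ g 0 * V₂ y + (1 - σ g 0) * V₂ v = V₂ g := by
  obtain ⟨e1, e2, i1, i2, i3, i4⟩ := F.two hg h1 h2
  rw [add_zero] at i1 i2 i3 i4
  exact mp (F.s0 g 0) (F.le1 g 0) (F.t0 g 0) (F.le2 g 0) c1 c2 c3 c4 e1 e2 i1 i2 i3 i4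

theorem Fix.h_val (F : Fix σ τ V₁ V₂ 0) : V₁ St.h = 1 / 2 ∧ V₂ St.h = 1 / 2 := by
  obtain ⟨e1, e2, e3, e4⟩ := F.mpv (g := St.h) (x := .I) (y := .J) (u := .J) (v := .I) rfl
    (by decide) (by decide) (by rw [F.I1, F.J1]; norm_num) (by rw [F.I1, F.J1]; norm_num)
    (by rw [F.I2, F.J2]; norm_num) (by rw [F.I2, F.J2]; norm_num)
  rw [F.I1, F.J1] at e1 e2
  rw [F.I2, F.J2] at e3 e4
  constructor <;> linarith

theorem Fix.c_val (F : Fix σ τ V₁ V₂ 0) : V₁ St.c = 1 / 3 ∧ V₂ St.c = 1 / 3 := by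
  have hs := F.s1 St.c
  have ht := F.t1 St.c
  rw [Fin.sum_univ_three] at hs ht
  have n00 : nxt St.c 0 0 = St.I := rfl
  have n01 : nxt St.c 0 1 = St.J := rfl
  have n02 : nxt St.c 0 2 = St.O := rfl
  have n10 : nxt St.c 1 0 = St.O := rfl
  have n11 : nxt St.c 1 1 = St.I := rfl
  have n12 : nxt St.c 1 2 = St.J := rfl
  have n20 : nxt St.c 2 0 = St.J := rfl
  have n21 : nxt St.c 2 1 = St.O := rfl
  have n22 : nxt St.c 2 2 = St.I := rfl
  have e1 := F.st1 St.c (by decide)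
  have e2 := F.st2 St.c (by decide)
  have a0 := F.d1 St.c (by decide) 0
  have a1 := F.d1 St.c (by decide) 1
  have a2 := F.d1 St.c (by decide) 2
  have b0 := F.d2 St.c (by decide) 0
  have b1 := F.d2 St.c (by decide) 1
  have b2 := F.d2 St.c (by decide) 2
  simp only [Fin.sum_univ_three, n00, n01, n02, n10, n11, n12, n20, n21, n22, F.I1, F.J1, F.O1,
    F.I2, F.J2, F.O2] at e1 e2 a0 a1 a2 b0 b1 b2
  refine rps (x0 := σ St.c 0) (x1 := σ St.c 1) (x2 := σ St.c 2) (y0 := τ St.c 0)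
    (y1 := τ St.c 1) (y2 := τ St.c 2) (F.s0 _ _) (F.s0 _ _) (F.s0 _ _) (F.t0 _ _) (F.t0 _ _)
    (F.t0 _ _) hs ht ?_ ?_ ?_ ?_ ?_ ?_ ?_ ?_ <;> linarith

theorem Fix.t_val (F : Fix σ τ V₁ V₂ 0) : V₁ St.t = 1 / 6 ∧ V₂ St.t = 2 / 3 := by
  obtain ⟨c1, c2⟩ := F.c_val
  obtain ⟨e1, e2, e3, e4⟩ := F.mpv (g := St.t) (x := .c) (y := .J) (u := .J) (v := .c) rfl
    (by decide) (by decide) (by rw [c1, F.J1]; norm_num) (by rw [c1, F.J1]; norm_num)
    (by rw [c2, F.J2]; norm_num) (by rw [c2, F.J2]; norm_num)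
  rw [c1, F.J1] at e1 e2
  rw [c2, F.J2] at e3 e4
  constructor <;> linarith

theorem Fix.b_val (F : Fix σ τ V₁ V₂ 0) : V₁ St.b = 3 / 7 ∧ V₂ St.b = 2 / 5 := by
  obtain ⟨c1, c2⟩ := F.c_val
  obtain ⟨h1, h2⟩ := F.h_val
  obtain ⟨e1, e2, e3, e4⟩ := F.mpv (g := St.b) (x := .I) (y := .c) (u := .J) (v := .h) rfl
    (by decide) (by decide) (by rw [F.I1, F.J1]; norm_num) (by rw [c1, h1]; norm_num)
    (by rw [F.I2, c2]; norm_num) (by rw [h2, F.J2]; norm_num)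
  rw [F.I1, c1] at e1
  rw [F.J1, h1] at e2
  rw [F.I2, F.J2] at e3
  rw [c2, h2] at e4
  constructor <;> linarith

/-- the state `q` when the value at `s` is in the right range -/
theorem Fix.q_val (F : Fix σ τ V₁ V₂ 0) (hz : 1 / 6 < V₁ St.s) (hw : V₂ St.s < 2 / 3) :
    V₁ St.q * (V₁ St.s + 2 / 3) = V₁ St.s - 1 / 36 ∧ V₂ St.q * (4 / 3 - V₂ St.s) = 4 / 9 := by
  obtain ⟨t1, t2⟩ := F.t_val
  obtain ⟨e1, e2, e3, e4⟩ := F.mpv (g := St.q) (x := .s) (y := .t) (u := .t) (v := .I) rfl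
    (by decide) (by decide) (by rw [t1]; exact hz) (by rw [t1, F.I1]; norm_num)
    (by rw [t2]; exact hw) (by rw [t2, F.I2]; norm_num)
  rw [t1] at e1 e2
  rw [F.I1] at e2
  rw [t2] at e3 e4
  rw [F.I2] at e4
  constructor
  · have hb : τ St.q 0 = (1 - V₁ St.q) * 6 / 5 := by linarith
    rw [hb] at e1
    linarith
  · have hb : σ St.q 0 = V₂ St.q * 3 / 2 := by linarith
    rw [hb] at e3
    linarith

/-- the state `r` in the limit -/
theorem Fix.r_two (F : Fix σ τ V₁ V₂ 0) :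
    V₁ St.r = σ St.r 0 * τ St.r 0 * (1 / 3) + (1 - σ St.r 0) * τ St.r 0 * V₁ St.q +
        (1 - σ St.r 0) * (1 - τ St.r 0) * (1 / 2) ∧
    V₂ St.r = σ St.r 0 * τ St.r 0 * (1 / 3) + (1 - σ St.r 0) * τ St.r 0 * V₂ St.q +
        (1 - σ St.r 0) * (1 - τ St.r 0) * (1 / 2) ∧
    τ St.r 0 * (1 / 3) ≤ V₁ St.r ∧
    τ St.r 0 * V₁ St.q + (1 - τ St.r 0) * (1 / 2) ≤ V₁ St.r ∧
    σ St.r 0 * (1 / 3) + (1 - σ St.r 0) * V₂ St.q ≤ V₂ St.r ∧
    (1 - σ St.r 0) * (1 / 2) ≤ V₂ St.r := by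
  obtain ⟨c1, c2⟩ := F.c_val
  obtain ⟨h1, h2⟩ := F.h_val
  obtain ⟨e1, e2, i1, i2, i3, i4⟩ := F.two (g := St.r) (x := .c) (y := .O) (u := .q) (v := .h)
    rfl (by decide) (by decide)
  rw [c1, F.O1, h1] at e1
  rw [c2, F.O2, h2] at e2
  rw [c1, F.O1] at i1
  rw [h1] at i2
  rw [c2] at i3
  rw [F.O2, h2] at i4
  refine ⟨?_, ?_, ?_, ?_, ?_, ?_⟩ <;> linarith

theorem Fix.s_two (F : Fix σ τ V₁ V₂ 0) :
    τ St.s 0 * V₁ St.r + (1 - τ St.s 0) * (1 / 2) ≤ V₁ St.s ∧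
    σ St.s 0 * (2 / 5) + (1 - σ St.s 0) * (1 / 2) ≤ V₂ St.s := by
  obtain ⟨b1, b2⟩ := F.b_val
  obtain ⟨h1, h2⟩ := F.h_val
  obtain ⟨e1, e2, i1, i2, i3, i4⟩ := F.two (g := St.s) (x := .s) (y := .b) (u := .r) (v := .h)
    rfl (by decide) (by decide)
  rw [h1] at i2
  rw [b2, h2] at i4
  constructor <;> linarith

/-- nobody moves at `s` -/
theorem Fix.caseA (F : Fix σ τ V₁ V₂ 0) (hw : V₂ St.s = 0) : False := by
  obtain ⟨_, i⟩ := F.s_two
  have h0 := F.s0 St.s 0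
  have h1 := F.le1 St.s 0
  nlinarith

/-- only player 2 moves at `s` -/
theorem Fix.caseB (F : Fix σ τ V₁ V₂ 0) (hz : V₁ St.s = V₁ St.b) (hw : V₂ St.s = V₂ St.b) :
    False := by
  obtain ⟨b1, b2⟩ := F.b_val
  rw [b1] at hz
  rw [b2] at hw
  obtain ⟨m, v⟩ := F.q_val (by rw [hz]; norm_num) (by rw [hw]; norm_num)
  rw [hz] at m
  rw [hw] at v
  have hm : V₁ St.q = 101 / 276 := by linarith
  have hv : V₂ St.q = 10 / 21 := by linarith
  obtain ⟨e1, e2, i1, i2, i3, i4⟩ := F.r_two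
  rw [hm] at e1 i2
  rw [hv] at e2 i3
  have p0 := F.s0 St.r 0
  have p1 := F.le1 St.r 0
  have y0 := F.t0 St.r 0
  have y1 := F.le2 St.r 0
  -- player 1 plays the second row
  have hp : σ St.r 0 = 0 := by
    by_contra hne
    have hpos : 0 < σ St.r 0 := lt_of_le_of_ne p0 (Ne.symm hne)
    have : σ St.r 0 * (τ St.r 0 * (101 / 276 - 1 / 3) + (1 - τ St.r 0) * (1 / 2)) ≤ 0 := by
      linarith
    have h2 : 0 < τ St.r 0 * (101 / 276 - 1 / 3) + (1 - τ St.r 0) * (1 / 2) := by nlinarith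
    have := mul_pos hpos h2
    linarith
  rw [hp] at e1 e2 i3 i4
  have hy : τ St.r 0 = 0 := by nlinarith
  rw [hy] at e1
  obtain ⟨j, _⟩ := F.s_two
  have hr : V₁ St.r = 1 / 2 := by linarith
  rw [hr, hz] at j
  linarith

/-- both move at `s` -/
theorem Fix.caseC (F : Fix σ τ V₁ V₂ 0) (hz : V₁ St.b ≤ V₁ St.s) (hw : V₂ St.r ≤ V₂ St.s)
    (hh : V₁ St.s / 2 + V₂ St.s ≤ 3 / 4) : False := by
  obtain ⟨b1, b2⟩ := F.b_val
  rw [b1] at hz
  have hw' : V₂ St.s < 2 / 3 := by linarith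
  obtain ⟨m, v⟩ := F.q_val (by linarith) hw'
  set z := V₁ St.s
  set w := V₂ St.s
  have hm : 1 / 3 < V₁ St.q := by
    by_contra hcon
    push Not at hcon
    nlinarith
  have hv : w < V₂ St.q := by
    by_contra hcon
    push Not at hcon
    have h1 : V₂ St.q * (4 / 3 - w) ≤ w * (4 / 3 - w) :=
      mul_le_mul_of_nonneg_right hcon (by linarith)
    have h2 : 0 < (w - 2 / 3) ^ 2 := by
      have : w - 2 / 3 ≠ 0 := by linarith
      positivity
    nlinarith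
  obtain ⟨e1, e2, i1, i2, i3, i4⟩ := F.r_two
  have p0 := F.s0 St.r 0
  have p1 := F.le1 St.r 0
  have y0 := F.t0 St.r 0
  have y1 := F.le2 St.r 0
  have hp : σ St.r 0 = 0 := by
    by_contra hne
    have hpos : 0 < σ St.r 0 := lt_of_le_of_ne p0 (Ne.symm hne)
    have : σ St.r 0 * (τ St.r 0 * (V₁ St.q - 1 / 3) + (1 - τ St.r 0) * (1 / 2)) ≤ 0 := by
      linarith
    have h2 : 0 < τ St.r 0 * (V₁ St.q - 1 / 3) + (1 - τ St.r 0) * (1 / 2) := by
      rcases eq_or_lt_of_le y0 with h | h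
      · rw [← h]; norm_num
      · have := mul_pos h (sub_pos.2 hm)
        nlinarith
    have := mul_pos hpos h2
    linarith
  rw [hp] at i3
  linarith

/-- only player 1 moves at `s` -/
theorem Fix.caseD (F : Fix σ τ V₁ V₂ 0) (hz : V₁ St.s = V₁ St.r) (hw : V₂ St.s = V₂ St.r)
    (hh : V₁ St.s / 2 + V₂ St.s ≤ 3 / 4) : False := by
  obtain ⟨e1, e2, i1, i2, i3, i4⟩ := F.r_two
  obtain ⟨_, j⟩ := F.s_two
  have s0 := F.s0 St.s 0
  have s1 := F.le1 St.s 0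
  have p0 := F.s0 St.r 0
  have p1 := F.le1 St.r 0
  have y0 := F.t0 St.r 0
  have y1 := F.le2 St.r 0
  rw [← hz] at e1 i1 i2
  rw [← hw] at e2 i3 i4
  have hw2 : 2 / 5 ≤ V₂ St.s := by linarith
  have hq6 : 1 / 6 ≤ V₁ St.q := by
    obtain ⟨t1, t2⟩ := F.t_val
    obtain ⟨_, _, _, k2, _, _⟩ := F.two (g := St.q) (x := .s) (y := .t) (u := .t) (v := .I)
      rfl (by decide) (by decide)
    rw [t1, F.I1] at k2
    have y0 := F.t0 St.q 0
    have y1 := F.le2 St.q 0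
    linarith
  have hz4 : 1 / 4 ≤ V₁ St.s := by
    have := mul_le_mul_of_nonneg_left hq6 y0
    linarith
  have hw3 : V₂ St.s < 2 / 3 := by linarith
  obtain ⟨m, v⟩ := F.q_val (by linarith) hw3
  set z := V₁ St.s
  set w := V₂ St.s
  set p := σ St.r 0
  set y := τ St.r 0
  have hmz : V₁ St.q < z := by
    by_contra hcon
    push Not at hcon
    have h1 : z * (z + 2 / 3) ≤ V₁ St.q * (z + 2 / 3) :=
      mul_le_mul_of_nonneg_right hcon (by linarith)
    have h2 : 0 < (z - 1 / 6) ^ 2 := by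
      have : z - 1 / 6 ≠ 0 := by linarith
      positivity
    nlinarith
  -- complementary slackness
  have k1 : p * (z - y * (1 / 3)) = 0 ∧ (1 - p) * (z - (y * V₁ St.q + (1 - y) * (1 / 2))) = 0 := by
    have a1 : 0 ≤ p * (z - y * (1 / 3)) := mul_nonneg p0 (by linarith)
    have a2 : 0 ≤ (1 - p) * (z - (y * V₁ St.q + (1 - y) * (1 / 2))) :=
      mul_nonneg (by linarith) (by linarith)
    have a3 : p * (z - y * (1 / 3)) + (1 - p) * (z - (y * V₁ St.q + (1 - y) * (1 / 2))) = 0 := by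
      linear_combination e1
    constructor <;> linarith
  have k2 : y * (w - (p * (1 / 3) + (1 - p) * V₂ St.q)) = 0 ∧
      (1 - y) * (w - (1 - p) * (1 / 2)) = 0 := by
    have a1 : 0 ≤ y * (w - (p * (1 / 3) + (1 - p) * V₂ St.q)) := mul_nonneg y0 (by linarith)
    have a2 : 0 ≤ (1 - y) * (w - (1 - p) * (1 / 2)) := mul_nonneg (by linarith) (by linarith)
    have a3 : y * (w - (p * (1 / 3) + (1 - p) * V₂ St.q)) +
        (1 - y) * (w - (1 - p) * (1 / 2)) = 0 := by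
      linear_combination e2
    constructor <;> linarith
  rcases mul_eq_zero.1 k2.2 with h | h
  · -- player 2 plays the first column
    have hy : y = 1 := by linarith
    rw [hy] at k1 e2
    rcases mul_eq_zero.1 k1.2 with h' | h'
    · have hp : p = 1 := by linarith
      rw [hp] at e2
      linarith
    · linarith
  · -- player 2 plays the second column with positive probability
    have hp : p = 1 - 2 * w := by linarith
    rw [hp] at i3
    have h1 : (1 - 2 * w) * (1 / 3) * (4 / 3 - w) + 2 * w * (V₂ St.q * (4 / 3 - w)) ≤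
        w * (4 / 3 - w) := by
      have := mul_le_mul_of_nonneg_right i3 (show (0 : ℝ) ≤ 4 / 3 - w by linarith)
      linarith
    rw [v] at h1
    nlinarith [sq_nonneg (w - 1 / 2)]

end Limit

end Pool.Agent.H40
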