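import Mathlib

/-! General facts about two-player concurrent reachability games with stationary profiles. -/

set_option autoImplicit false
set_option linter.unusedSectionVars false
set_option linter.unusedVariables false

open Filter Topology

namespace Pool.Agent.H40

section Gen

variable {S A B : Type} [Fintype S] [Fintype A] [Fintype B]

/-- one step of the value iteration -/
noncomputable def Op (next : S → A → B → S) (σ : S → A → ℝ) (τ : S → B → ℝ) (T : Set S)
    (v : S → ℝ) : S → ℝ :=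
  T.indicator (fun _ => (1 : ℝ)) +
    Tᶜ.indicator (fun x => ∑ a, ∑ b, σ x a * τ x b * v (next x a b))

/-- the iterates -/
noncomputable def It (next : S → A → B → S) (σ : S → A → ℝ) (τ : S → B → ℝ) (T : Set S)
    (n : ℕ) : S → ℝ :=
  (Op next σ τ T)^[n] (T.indicator (fun _ => (1 : ℝ)))

/-- reachability probability -/
noncomputable def Rv (next : S → A → B → S) (σ : S → A → ℝ) (τ : S → B → ℝ) (T : Set S)
    (s : S) : ℝ :=
  ⨆ n : ℕ, It next σ τ T n s

/-- stationary strategies -/
def IsStrat (σ : S → A → ℝ) : Prop := (∀ s a, 0 ≤ σ s a) ∧ ∀ s, ∑ a, σ s a = 1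

variable {next : S → A → B → S} {σ σ' : S → A → ℝ} {τ τ' : S → B → ℝ} {T : Set S}

theorem Op_mem {v : S → ℝ} {s : S} (hs : s ∈ T) : Op next σ τ T v s = 1 := by
  simp [Op, hs]

theorem Op_not_mem {v : S → ℝ} {s : S} (hs : s ∉ T) :
    Op next σ τ T v s = ∑ a, ∑ b, σ s a * τ s b * v (next s a b) := by
  simp [Op, hs]

theorem It_zero : It next σ τ T 0 = T.indicator (fun _ => (1 : ℝ)) := rfl

theorem It_succ (n : ℕ) : It next σ τ T (n + 1) = Op next σ τ T (It next σ τ T n) := by
  unfold It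
  rw [Function.iterate_succ_apply']

theorem It_mem {s : S} (hs : s ∈ T) (n : ℕ) : It next σ τ T n s = 1 := by
  cases n with
  | zero => rw [It_zero]; simp [hs]
  | succ n => rw [It_succ]; exact Op_mem hs

theorem It_succ_not_mem {s : S} (hs : s ∉ T) (n : ℕ) :
    It next σ τ T (n + 1) s = ∑ a, ∑ b, σ s a * τ s b * It next σ τ T n (next s a b) := by
  rw [It_succ]; exact Op_not_mem hs

theorem It_zero_not_mem {s : S} (hs : s ∉ T) : It next σ τ T 0 s = 0 := by
  rw [It_zero]; simp [hs]

theorem sum_weights (hσ : IsStrat σ) (hτ : IsStrat τ) (s : S) :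
    ∑ a, ∑ b, σ s a * τ s b = 1 := by
  simp_rw [← Finset.mul_sum]
  rw [hτ.2 s]
  simp [hσ.2 s]

theorem It_nonneg (hσ : IsStrat σ) (hτ : IsStrat τ) (n : ℕ) (s : S) :
    0 ≤ It next σ τ T n s := by
  induction n generalizing s with
  | zero =>
    by_cases hs : s ∈ T
    · rw [It_mem hs]; exact zero_le_one
    · rw [It_zero_not_mem hs]
  | succ n ih =>
    by_cases hs : s ∈ T
    · rw [It_mem hs]; exact zero_le_one
    · rw [It_succ_not_mem hs]
      exact Finset.sum_nonneg fun a _ => Finset.sum_nonneg fun b _ =>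
        mul_nonneg (mul_nonneg (hσ.1 s a) (hτ.1 s b)) (ih _)

theorem It_le_one (hσ : IsStrat σ) (hτ : IsStrat τ) (n : ℕ) (s : S) :
    It next σ τ T n s ≤ 1 := by
  induction n generalizing s with
  | zero =>
    by_cases hs : s ∈ T
    · rw [It_mem hs]
    · rw [It_zero_not_mem hs]; exact zero_le_one
  | succ n ih =>
    by_cases hs : s ∈ T
    · rw [It_mem hs]
    · rw [It_succ_not_mem hs, ← sum_weights hσ hτ s]
      refine Finset.sum_le_sum fun a _ => Finset.sum_le_sum fun b _ => ?_
      have h := mul_nonneg (hσ.1 s a) (hτ.1 s b)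
      nlinarith [ih (next s a b)]

theorem It_mono (hσ : IsStrat σ) (hτ : IsStrat τ) (s : S) :
    Monotone fun n => It next σ τ T n s := by
  have key : ∀ n s, It next σ τ T n s ≤ It next σ τ T (n + 1) s := by
    intro n
    induction n with
    | zero =>
      intro s
      by_cases hs : s ∈ T
      · rw [It_mem hs, It_mem hs]
      · rw [It_zero_not_mem hs]; exact It_nonneg hσ hτ _ _
    | succ n ih =>
      intro s
      by_cases hs : s ∈ T
      · rw [It_mem hs, It_mem hs]
      · rw [It_succ_not_mem hs, It_succ_not_mem hs]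
        refine Finset.sum_le_sum fun a _ => Finset.sum_le_sum fun b _ => ?_
        have h := mul_nonneg (hσ.1 s a) (hτ.1 s b)
        exact mul_le_mul_of_nonneg_left (ih _) h
  exact monotone_nat_of_le_succ fun n => key n s

theorem It_bdd (hσ : IsStrat σ) (hτ : IsStrat τ) (s : S) :
    BddAbove (Set.range fun n => It next σ τ T n s) := by
  refine ⟨1, ?_⟩
  rintro _ ⟨n, rfl⟩
  exact It_le_one hσ hτ n s

theorem It_tendsto (hσ : IsStrat σ) (hτ : IsStrat τ) (s : S) :
    Tendsto (fun n => It next σ τ T n s) atTop (𝓝 (Rv next σ τ T s)) :=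
  tendsto_atTop_ciSup (It_mono hσ hτ s) (It_bdd hσ hτ s)

theorem It_le_Rv (hσ : IsStrat σ) (hτ : IsStrat τ) (n : ℕ) (s : S) :
    It next σ τ T n s ≤ Rv next σ τ T s :=
  le_ciSup (It_bdd hσ hτ s) n

theorem Rv_nonneg (hσ : IsStrat σ) (hτ : IsStrat τ) (s : S) : 0 ≤ Rv next σ τ T s :=
  (It_nonneg hσ hτ 0 s).trans (It_le_Rv hσ hτ 0 s)

theorem Rv_le_one (hσ : IsStrat σ) (hτ : IsStrat τ) (s : S) : Rv next σ τ T s ≤ 1 :=
  ciSup_le fun n => It_le_one hσ hτ n s

theorem Rv_mem {s : S} (hs : s ∈ T) : Rv next σ τ T s = 1 := by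
  unfold Rv
  simp_rw [It_mem hs]
  simp

theorem Rv_step (hσ : IsStrat σ) (hτ : IsStrat τ) {s : S} (hs : s ∉ T) :
    Rv next σ τ T s = ∑ a, ∑ b, σ s a * τ s b * Rv next σ τ T (next s a b) := by
  have h1 : Tendsto (fun n => It next σ τ T (n + 1) s) atTop (𝓝 (Rv next σ τ T s)) :=
    (It_tendsto hσ hτ s).comp (tendsto_add_atTop_nat 1)
  have h2 : Tendsto (fun n => It next σ τ T (n + 1) s) atTop
      (𝓝 (∑ a, ∑ b, σ s a * τ s b * Rv next σ τ T (next s a b))) := by
    have : (fun n => It next σ τ T (n + 1) s) =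
        fun n => ∑ a, ∑ b, σ s a * τ s b * It next σ τ T n (next s a b) := by
      funext n; exact It_succ_not_mem hs n
    rw [this]
    exact tendsto_finsetSum _ fun a _ => tendsto_finsetSum _ fun b _ =>
      (It_tendsto hσ hτ _).const_mul _
  exact tendsto_nhds_unique h1 h2

theorem Rv_closed {C : Set S} (hσ : IsStrat σ) (hτ : IsStrat τ) (hC : ∀ x ∈ C, x ∉ T)
    (hcl : ∀ x ∈ C, ∀ a b, σ x a * τ x b ≠ 0 → next x a b ∈ C) :
    ∀ x ∈ C, Rv next σ τ T x = 0 := by
  have key : ∀ n, ∀ x ∈ C, It next σ τ T n x = 0 := by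
    intro n
    induction n with
    | zero => intro x hx; exact It_zero_not_mem (hC x hx)
    | succ n ih =>
      intro x hx
      rw [It_succ_not_mem (hC x hx)]
      refine Finset.sum_eq_zero fun a _ => Finset.sum_eq_zero fun b _ => ?_
      by_cases h : σ x a * τ x b = 0
      · rw [h, zero_mul]
      · rw [ih _ (hcl x hx a b h), mul_zero]
  intro x hx
  unfold Rv
  simp_rw [fun n => key n x hx]
  simp

theorem Rv_hull {D : Set S} {T₁ T₂ : Set S} {α β K : ℝ} (hσ : IsStrat σ) (hτ : IsStrat τ)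
    (hα : 0 ≤ α) (hβ : 0 ≤ β) (hK : 0 ≤ K)
    (h1 : ∀ x ∈ D, x ∉ T₁) (h2 : ∀ x ∈ D, x ∉ T₂)
    (hD : ∀ x ∈ D, ∀ a b, next x a b ∈ D ∨
      α * Rv next σ τ T₁ (next x a b) + β * Rv next σ τ T₂ (next x a b) ≤ K) :
    ∀ x ∈ D, α * Rv next σ τ T₁ x + β * Rv next σ τ T₂ x ≤ K := by
  have key : ∀ n, ∀ x ∈ D, α * It next σ τ T₁ n x + β * It next σ τ T₂ n x ≤ K := by
    intro n
    induction n with
    | zero =>
      intro x hx
      rw [It_zero_not_mem (h1 x hx), It_zero_not_mem (h2 x hx)]
      simpa using hK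
    | succ n ih =>
      intro x hx
      rw [It_succ_not_mem (h1 x hx), It_succ_not_mem (h2 x hx)]
      have e : α * (∑ a, ∑ b, σ x a * τ x b * It next σ τ T₁ n (next x a b)) +
          β * (∑ a, ∑ b, σ x a * τ x b * It next σ τ T₂ n (next x a b)) =
          ∑ a, ∑ b, σ x a * τ x b * (α * It next σ τ T₁ n (next x a b) +
            β * It next σ τ T₂ n (next x a b)) := by
        simp_rw [Finset.mul_sum, ← Finset.sum_add_distrib]
        refine Finset.sum_congr rfl fun a _ => Finset.sum_congr rfl fun b _ => ?_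
        ring
      rw [e]
      have e2 : K = ∑ a, ∑ b, σ x a * τ x b * K := by
        simp_rw [← Finset.sum_mul]
        rw [sum_weights hσ hτ x, one_mul]
      rw [e2]
      refine Finset.sum_le_sum fun a _ => Finset.sum_le_sum fun b _ => ?_
      refine mul_le_mul_of_nonneg_left ?_ (mul_nonneg (hσ.1 x a) (hτ.1 x b))
      rcases hD x hx a b with h | h
      · exact ih _ h
      · refine le_trans ?_ h
        exact add_le_add (mul_le_mul_of_nonneg_left (It_le_Rv hσ hτ n _) hα)
          (mul_le_mul_of_nonneg_left (It_le_Rv hσ hτ n _) hβ)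
  intro x hx
  have t1 := (It_tendsto (next := next) (T := T₁) hσ hτ x).const_mul α
  have t2 := (It_tendsto (next := next) (T := T₂) hσ hτ x).const_mul β
  exact le_of_tendsto (t1.add t2) (Eventually.of_forall fun n => key n x hx)

/-- one-shot deviations -/
theorem oneShot [DecidableEq S] [DecidableEq A] (hσ : IsStrat σ) (hτ : IsStrat τ) {g : S}
    (hg : g ∉ T) {a₀ : A} {ε : ℝ} (hε : 0 ≤ ε)
    (hdev : ∀ σ' : S → A → ℝ, IsStrat σ' → ∀ s, Rv next σ' τ T s ≤ Rv next σ τ T s + ε) :
    ∑ b, τ g b * Rv next σ τ T (next g a₀ b) ≤ Rv next σ τ T g + ε := by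
  classical
  set σ' : S → A → ℝ := Function.update σ g (Pi.single a₀ 1) with hσ'def
  have hσ'g : σ' g = Pi.single a₀ 1 := by simp [hσ'def]
  have hσ'x : ∀ x, x ≠ g → σ' x = σ x := by
    intro x hx; simp [hσ'def, Function.update_of_ne hx]
  have hσ' : IsStrat σ' := by
    refine ⟨fun s a => ?_, fun s => ?_⟩
    · by_cases hs : s = g
      · subst hs; rw [hσ'g]
        by_cases ha : a = a₀
        · subst ha; simp
        · simp [Pi.single_eq_of_ne ha]
      · rw [hσ'x s hs]; exact hσ.1 s a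
    · by_cases hs : s = g
      · subst hs; rw [hσ'g]; simp
      · rw [hσ'x s hs]; exact hσ.2 s
  have hd := hdev σ' hσ'
  set V : S → ℝ := Rv next σ τ T with hV
  set W : S → ℝ := Rv next σ' τ T with hW
  by_contra hcon
  push Not at hcon
  have hWg : W g = ∑ b, τ g b * W (next g a₀ b) := by
    rw [hW, Rv_step hσ' hτ hg, hσ'g]
    rw [Finset.sum_eq_single a₀]
    · simp
    · intro a _ ha; simp [Pi.single_eq_of_ne ha]
    · simp
  -- minimiser of W - V
  haveI : Nonempty S := ⟨g⟩
  obtain ⟨x₀, hx₀⟩ := Finite.exists_min (fun x => W x - V x)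
  have hmin0 : 0 ≤ W x₀ - V x₀ := by
    by_contra hneg
    push Not at hneg
    set μ := W x₀ - V x₀ with hμ
    let C : Set S := {x | W x - V x = μ}
    have hCT : ∀ x ∈ C, x ∉ T := by
      intro x hx hxT
      have : W x - V x = μ := hx
      rw [hW, hV, Rv_mem hxT, Rv_mem hxT] at this
      linarith
    have hgC : g ∉ C := by
      intro hgC
      have h0 : W g - V g = μ := hgC
      have h1 : ∑ b, τ g b * (V (next g a₀ b) + μ) ≤ ∑ b, τ g b * W (next g a₀ b) := by
        refine Finset.sum_le_sum fun b _ => ?_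
        refine mul_le_mul_of_nonneg_left ?_ (hτ.1 g b)
        have := hx₀ (next g a₀ b)
        linarith
      have h2 : ∑ b, τ g b * (V (next g a₀ b) + μ) = ∑ b, τ g b * V (next g a₀ b) + μ := by
        simp_rw [mul_add]
        rw [Finset.sum_add_distrib, ← Finset.sum_mul, hτ.2 g, one_mul]
      rw [h2, ← hWg] at h1
      linarith
    have hcl : ∀ x ∈ C, ∀ a b, σ x a * τ x b ≠ 0 → next x a b ∈ C := by
      intro x hx a b hab
      have hxg : x ≠ g := by rintro rfl; exact hgC hx
      have h0 : W x - V x = μ := hx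
      have hxT := hCT x hx
      have hWx : W x = ∑ a, ∑ b, σ x a * τ x b * W (next x a b) := by
        rw [hW, Rv_step hσ' hτ hxT, hσ'x x hxg]
      have hVx : V x = ∑ a, ∑ b, σ x a * τ x b * V (next x a b) := by
        rw [hV, Rv_step hσ hτ hxT]
      have hsum : ∑ a, ∑ b, σ x a * τ x b * (W (next x a b) - V (next x a b) - μ) = 0 := by
        have e : ∀ a b, σ x a * τ x b * (W (next x a b) - V (next x a b) - μ) =
            σ x a * τ x b * W (next x a b) - σ x a * τ x b * V (next x a b) -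
              σ x a * τ x b * μ := fun a b => by ring
        simp_rw [e, Finset.sum_sub_distrib]
        rw [← hWx, ← hVx]
        simp_rw [← Finset.sum_mul]
        rw [sum_weights hσ hτ x]
        linarith
      have hnn : ∀ a b, 0 ≤ σ x a * τ x b * (W (next x a b) - V (next x a b) - μ) := by
        intro a b
        refine mul_nonneg (mul_nonneg (hσ.1 x a) (hτ.1 x b)) ?_
        have := hx₀ (next x a b)
        linarith
      have h1 := (Finset.sum_eq_zero_iff_of_nonneg (s := Finset.univ)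
        (fun a _ => Finset.sum_nonneg fun b _ => hnn a b)).1 hsum a (Finset.mem_univ a)
      have h2 := (Finset.sum_eq_zero_iff_of_nonneg (s := Finset.univ)
        (fun b _ => hnn a b)).1 h1 b (Finset.mem_univ b)
      rcases mul_eq_zero.1 h2 with h | h
      · exact absurd h hab
      · show W (next x a b) - V (next x a b) = μ
        linarith
    have hcl' : ∀ x ∈ C, ∀ a b, σ' x a * τ x b ≠ 0 → next x a b ∈ C := by
      intro x hx a b hab
      have hxg : x ≠ g := by rintro rfl; exact hgC hx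
      rw [hσ'x x hxg] at hab
      exact hcl x hx a b hab
    have hx₀C : x₀ ∈ C := rfl
    have e1 : V x₀ = 0 := Rv_closed hσ hτ hCT hcl x₀ hx₀C
    have e2 : W x₀ = 0 := Rv_closed hσ' hτ hCT hcl' x₀ hx₀C
    rw [e1, e2] at hμ
    linarith
  have h1 : ∑ b, τ g b * V (next g a₀ b) ≤ ∑ b, τ g b * W (next g a₀ b) := by
    refine Finset.sum_le_sum fun b _ => ?_
    refine mul_le_mul_of_nonneg_left ?_ (hτ.1 g b)
    have := hx₀ (next g a₀ b)
    linarith
  rw [← hWg] at h1
  have := hd g
  linarith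

theorem Rv_swap (next : S → A → B → S) (σ : S → A → ℝ) (τ : S → B → ℝ) (T : Set S) :
    Rv next σ τ T = Rv (fun s b a => next s a b) τ σ T := by
  have hOp : Op next σ τ T = Op (fun s b a => next s a b) τ σ T := by
    funext v
    unfold Op
    congr 2
    funext x
    rw [Finset.sum_comm]
    refine Finset.sum_congr rfl fun b _ => Finset.sum_congr rfl fun a _ => ?_
    ring
  funext s
  unfold Rv It
  rw [hOp]

theorem oneShot₂ [DecidableEq S] [DecidableEq B] (hσ : IsStrat σ) (hτ : IsStrat τ) {g : S}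
    (hg : g ∉ T) {b₀ : B} {ε : ℝ} (hε : 0 ≤ ε)
    (hdev : ∀ τ' : S → B → ℝ, IsStrat τ' → ∀ s, Rv next σ τ' T s ≤ Rv next σ τ T s + ε) :
    ∑ a, σ g a * Rv next σ τ T (next g a b₀) ≤ Rv next σ τ T g + ε := by
  have hdev' : ∀ τ' : S → B → ℝ, IsStrat τ' → ∀ s,
      Rv (fun s b a => next s a b) τ' σ T s ≤ Rv (fun s b a => next s a b) τ σ T s + ε := by
    intro τ' hτ' s
    have := hdev τ' hτ' s
    rwa [Rv_swap, Rv_swap next σ τ T] at this
  have h := oneShot (next := fun s b a => next s a b) hτ hσ hg (a₀ := b₀) hε hdev'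
  rwa [← Rv_swap] at h

theorem Rv_congr {D : Set S} (hD : ∀ x ∈ D, ∀ a b, next x a b ∈ D)
    (h1 : ∀ x ∈ D, σ x = σ' x) (h2 : ∀ x ∈ D, τ x = τ' x) :
    ∀ x ∈ D, Rv next σ τ T x = Rv next σ' τ' T x := by
  have key : ∀ n, ∀ x ∈ D, It next σ τ T n x = It next σ' τ' T n x := by
    intro n
    induction n with
    | zero => intro x _; rfl
    | succ n ih =>
      intro x hx
      by_cases hT : x ∈ T
      · rw [It_mem hT, It_mem hT]
      · rw [It_succ_not_mem hT, It_succ_not_mem hT, h1 x hx, h2 x hx]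
        refine Finset.sum_congr rfl fun a _ => Finset.sum_congr rfl fun b _ => ?_
        rw [ih _ (hD x hx a b)]
  intro x hx
  unfold Rv
  simp_rw [fun n => key n x hx]

end Gen

end Pool.Agent.H40
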