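import Mathlib
import Pool.Agent.PalSieve.Mertens

/-!
# Negative side of the translation property
-/

set_option autoImplicit false

open Finset

namespace Pool.Agent.H40.TransNeg

/-- A positive number all of whose prime factors lie in `F` has a prime power divisor that is
large. -/
lemma exists_large_prime_power {F : Finset ℕ} {m : ℕ} (hm : 0 < m)
    (hs : ∀ p, p.Prime → p ∣ m → p ∈ F) (hne : F.Nonempty) :
    ∃ p ∈ F, m ≤ (p ^ m.factorization p) ^ F.card := by
  classical
  obtain ⟨p, hp, hmax⟩ := Finset.exists_max_image F (fun p => p ^ m.factorization p) hne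
  refine ⟨p, hp, ?_⟩
  have h1 : m = ∏ q ∈ F, q ^ m.factorization q := by
    conv_lhs => rw [← Nat.prod_factorization_pow_eq_self hm.ne']
    rw [Finsupp.prod]
    refine Finset.prod_subset ?_ ?_
    · intro q hq
      rw [Nat.support_factorization, Nat.mem_primeFactors] at hq
      exact hs q hq.1 hq.2.1
    · intro q _ hq
      rw [Finsupp.notMem_support_iff] at hq
      rw [hq, pow_zero]
  calc m = ∏ q ∈ F, q ^ m.factorization q := h1
    _ ≤ ∏ _q ∈ F, p ^ m.factorization p := Finset.prod_le_prod' fun q hq => hmax q hq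
    _ = (p ^ m.factorization p) ^ F.card := by rw [Finset.prod_const]

/-- If `t + q ^ i` is `F`-smooth for `i ≤ |F|` then `t` is bounded. -/
lemma bound_shift {F : Finset ℕ} (hF : ∀ p ∈ F, p.Prime) {q t : ℕ} (hq : q ∈ F)
    (h : ∀ i ≤ F.card, ∀ p, p.Prime → p ∣ q ^ i + t → p ∈ F) :
    t ≤ (q ^ F.card) ^ F.card := by
  classical
  have hne : F.Nonempty := ⟨q, hq⟩
  have hq2 : 2 ≤ q := (hF q hq).two_le
  have hpos : ∀ i, 0 < q ^ i + t := fun i => Nat.add_pos_left (pow_pos (by omega) i) t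
  have h1 : ∀ i : ℕ, i ≤ F.card → ∃ p ∈ F, q ^ i + t ≤
      (p ^ (q ^ i + t).factorization p) ^ F.card := fun i hi =>
    exists_large_prime_power (hpos i) (h i hi) hne
  choose! f hfF hfle using h1
  obtain ⟨i, hi, j, hj, hij, hfij⟩ := Finset.exists_ne_map_eq_of_card_lt_of_maps_to
    (s := Finset.range (F.card + 1)) (t := F) (f := f) (by simp)
    (fun i hi => hfF i (by simpa [Nat.lt_succ_iff] using hi))
  rw [Finset.mem_range, Nat.lt_succ_iff] at hi hj
  -- wlog `i < j`
  have key : ∀ i j : ℕ, i < j → i ≤ F.card → j ≤ F.card → f i = f j →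
      t ≤ (q ^ F.card) ^ F.card := by
    intro i j hij hi hj hfij
    set p := f i with hp
    have hpp : p.Prime := hF p (hfF i hi)
    set e := min ((q ^ i + t).factorization p) ((q ^ j + t).factorization p) with he
    have hd1 : p ^ e ∣ q ^ i + t :=
      (pow_dvd_pow p (min_le_left _ _)).trans (Nat.ordProj_dvd _ _)
    have hd2 : p ^ e ∣ q ^ j + t :=
      (pow_dvd_pow p (min_le_right _ _)).trans (Nat.ordProj_dvd _ _)
    have hd3 : p ^ e ∣ q ^ j - q ^ i := by
      have := (Nat.dvd_sub hd2 hd1)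
      rwa [Nat.add_sub_add_right] at this
    have hlt : q ^ i < q ^ j := Nat.pow_lt_pow_right (by omega) hij
    have hle : p ^ e ≤ q ^ F.card := by
      refine (Nat.le_of_dvd (by omega) hd3).trans ?_
      refine (Nat.sub_le _ _).trans (Nat.pow_le_pow_right (by omega) hj)
    have hge : t ≤ (p ^ e) ^ F.card := by
      rcases min_choice ((q ^ i + t).factorization p) ((q ^ j + t).factorization p) with h' | h'
      · rw [← he] at h'
        have := hfle i hi
        rw [← hp, ← h'] at this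
        omega
      · rw [← he] at h'
        have := hfle j hj
        rw [← hfij, ← h'] at this
        omega
    exact hge.trans (Nat.pow_le_pow_left hle _)
  rcases lt_or_gt_of_ne hij with h' | h'
  · exact key i j h' hi hj hfij
  · exact key j i h' hj hi hfij.symm

/-- Main combinatorial statement. -/
theorem not_translation (B : Set ℕ) (h1 : 1 ∉ B)
    (hfin : {p : ℕ | p.Prime ∧ p ∉ B}.Finite) :
    ∃ n : ℕ, 1 ≤ n ∧ ∀ t : ℕ, 1 ≤ t → ¬ (∀ a : ℕ, 1 ≤ a → a ≤ n →
      ((0 < a ∧ ∀ b ∈ B, ¬ b ∣ a) ↔ (0 < a + t ∧ ∀ b ∈ B, ¬ b ∣ a + t))) := by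
  classical
  set F : Finset ℕ := hfin.toFinset with hFdef
  have hF : ∀ p, p ∈ F ↔ p.Prime ∧ p ∉ B := by intro p; simp [hFdef]
  have hFp : ∀ p ∈ F, p.Prime := fun p hp => ((hF p).1 hp).1
  have hA1 : ∀ b ∈ B, ¬ b ∣ 1 := by
    intro b hb hb1
    rw [Nat.dvd_one] at hb1
    exact h1 (hb1 ▸ hb)
  -- elements avoiding B are F-smooth
  have hsm : ∀ m, (∀ b ∈ B, ¬ b ∣ m) → ∀ p, p.Prime → p ∣ m → p ∈ F := by
    intro m hm p hp hpm
    exact (hF p).2 ⟨hp, fun hpB => hm p hpB hpm⟩
  set M : ℕ := ∏ p ∈ F, p with hM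
  have hMpos : 0 < M := Finset.prod_pos fun p hp => (hFp p hp).pos
  -- the final contradiction for bounded `t`
  have fin : ∀ T n : ℕ, 1 + M * T ≤ n → ∀ t : ℕ, 1 ≤ t → t ≤ T →
      ¬ (∀ a : ℕ, 1 ≤ a → a ≤ n →
      ((0 < a ∧ ∀ b ∈ B, ¬ b ∣ a) ↔ (0 < a + t ∧ ∀ b ∈ B, ¬ b ∣ a + t))) := by
    intro T n hn t ht htT h
    have hj : ∀ j : ℕ, j ≤ M → ∀ b ∈ B, ¬ b ∣ 1 + j * t := by
      intro j
      induction j with
      | zero => intro _; simpa using hA1
      | succ j ih =>
        intro hj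
        have h2 := ih (by omega)
        have h3 : 1 + j * t ≤ n := by
          have : j * t ≤ M * T := Nat.mul_le_mul (by omega) htT
          omega
        have h4 := ((h (1 + j * t) (by omega) h3).1 ⟨by omega, h2⟩).2
        have h5 : 1 + j * t + t = 1 + (j + 1) * t := by ring
        rw [h5] at h4
        exact h4
    have h6 := hj M le_rfl
    have h7 : 1 + M * t ≠ 1 := by
      have : 0 < M * t := Nat.mul_pos hMpos (by omega)
      omega
    obtain ⟨p, hp, hpd⟩ := Nat.exists_prime_and_dvd h7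
    have h8 := hsm _ h6 p hp hpd
    have h9 : p ∣ M * t := Dvd.dvd.mul_right (Finset.dvd_prod_of_mem _ h8) t
    have h10 : p ∣ 1 := (Nat.dvd_add_left h9).1 hpd
    exact hp.one_lt.ne' (Nat.dvd_one.1 h10)
  by_cases hpow : ∃ q ∈ F, ∀ i : ℕ, q ^ i ∉ B
  · obtain ⟨q, hqF, hqB⟩ := hpow
    have hqp := hFp q hqF
    have hqA : ∀ i : ℕ, ∀ b ∈ B, ¬ b ∣ q ^ i := by
      intro i b hb hbd
      obtain ⟨j, _, hj⟩ := (Nat.dvd_prime_pow hqp).1 hbd
      exact hqB j (hj ▸ hb)
    set T : ℕ := (q ^ F.card) ^ F.card with hT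
    refine ⟨max (q ^ F.card) (1 + M * T), ?_, ?_⟩
    · exact le_max_of_le_right (by omega)
    · intro t ht h
      refine fin T _ (le_max_right _ _) t ht ?_ h
      refine bound_shift hFp hqF ?_
      intro i hi p hp hpd
      have h3 : q ^ i ≤ max (q ^ F.card) (1 + M * T) :=
        le_max_of_le_left (Nat.pow_le_pow_right hqp.pos hi)
      have h4 := ((h (q ^ i) (Nat.one_le_pow _ _ hqp.pos) h3).1
        ⟨pow_pos hqp.pos i, hqA i⟩).2
      exact hsm _ h4 p hp hpd
  · push Not at hpow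
    -- now `A` is bounded
    choose! e he using hpow
    set D : ℕ := ∏ p ∈ F, p ^ e p with hD
    have hDpos : 0 < D := Finset.prod_pos fun p hp => pow_pos (hFp p hp).pos _
    have hbd : ∀ m, 0 < m → (∀ b ∈ B, ¬ b ∣ m) → m ∣ D := by
      intro m hm hmB
      rw [← Nat.factorization_le_iff_dvd hm.ne' hDpos.ne']
      intro p
      by_cases hpm : p ∈ m.primeFactors
      · have hp := Nat.prime_of_mem_primeFactors hpm
        have hpF := hsm m hmB p hp (Nat.dvd_of_mem_primeFactors hpm)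
        have h2 : m.factorization p ≤ e p := by
          by_contra hcon
          push Not at hcon
          exact hmB _ (he p hpF) ((pow_dvd_pow p hcon.le).trans (Nat.ordProj_dvd _ _))
        refine h2.trans ?_
        have h3 : p ^ e p ∣ D := Finset.dvd_prod_of_mem _ hpF
        exact (hp.pow_dvd_iff_le_factorization hDpos.ne').1 h3
      · have : m.factorization p = 0 := by
          rw [← Finsupp.notMem_support_iff, Nat.support_factorization]; exact hpm
        rw [this]; exact Nat.zero_le _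
    refine ⟨1 + M * D, by omega, ?_⟩
    intro t ht h
    refine fin D _ le_rfl t ht ?_ h
    have h4 := ((h 1 le_rfl (by omega)).1 ⟨one_pos, hA1⟩).2
    have h5 := Nat.le_of_dvd hDpos (hbd (1 + t) (by omega) h4)
    omega

/-- Sum of reciprocals of the primes in `[y, x)`. -/
lemma sum_le {y : ℕ} (hy : 2 ≤ y) {x : ℝ} (hx : (y : ℝ) ≤ x) :
    ∑ p ∈ (Ico y ⌈x⌉₊).filter Nat.Prime, (1 : ℝ) / p ≤
      Real.log (Real.log x) + 1 - Real.log (Real.log y) + 9 / Real.log y := by
  have hy' : (2 : ℝ) ≤ y := by exact_mod_cast hy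
  have hx2 : 2 ≤ x := hy'.trans hx
  have hyx : y ≤ ⌈x⌉₊ := by
    have := hx.trans (Nat.le_ceil x)
    exact_mod_cast this
  have h := (abs_le.1 (Pool.Agent.Sv.abs_sum_inv_sub_le hy hyx)).2
  have hlogx : 0 < Real.log x := Real.log_pos (by linarith)
  have hc : Real.log (Real.log (⌈x⌉₊ : ℝ)) ≤ Real.log (Real.log x) + 1 := by
    have h1 : ((⌈x⌉₊ : ℕ) : ℝ) ≤ x ^ 2 := by
      have := (Nat.ceil_lt_add_one (by linarith : (0 : ℝ) ≤ x)).le
      nlinarith
    have hpos : (0 : ℝ) < (⌈x⌉₊ : ℝ) := lt_of_lt_of_le (by linarith) (Nat.le_ceil x)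
    have h2 : Real.log (⌈x⌉₊ : ℝ) ≤ 2 * Real.log x := by
      have := Real.log_le_log hpos h1
      rwa [Real.log_pow] at this
    have h3 : 0 < Real.log (⌈x⌉₊ : ℝ) :=
      Real.log_pos (lt_of_lt_of_le (by linarith) (Nat.le_ceil x))
    have h4 := Real.log_le_log h3 h2
    rw [Real.log_mul (by norm_num) hlogx.ne'] at h4
    have := Real.log_two_lt_d9
    linarith
  linarith

end Pool.Agent.H40.TransNeg
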